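import Pool.Agent.Q210.RWT.Stmts

namespace Pool.Agent.Q210.RWT

open MeasureTheory ProbabilityTheory Finset

/-- the final statement -/
def Final : Prop :=
  (∀ (d L : ℕ) (a : ℕ → Fin (d + 1)), 1 ≤ L → Nondeg a → Per L a →
    4 * ((range L).filter (fun x => a x = 0)).card ≤ L →
    ∀ (Ω : Type) [MeasurableSpace Ω] (P : Measure Ω) [IsProbabilityMeasure P]
      (K : V d → Ω → ℕ), Unif P d L K → ∀ᵐ ω ∂P, ¬ Recurrent (cfg a K ω)) ∧
  (∀ (d L : ℕ) (a : ℕ → Fin (d + 1)), 3 ≤ d → 1 ≤ L → Nondeg a → Per L a →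
    (∀ r : Fin (d + 1), ((range L).filter (fun x => a x = r)).card =
      ((range L).filter (fun x => a x = 0)).card) →
    ∀ (Ω : Type) [MeasurableSpace Ω] (P : Measure Ω) [IsProbabilityMeasure P]
      (K : V d → Ω → ℕ), Unif P d L K → ∀ᵐ ω ∂P, ¬ Recurrent (cfg a K ω)) ∧
  (∀ d : ℕ, Nondeg (ex d) ∧ Per (d ^ 2 + d + 1) (ex d) ∧
    ∀ (Ω : Type) [MeasurableSpace Ω] (P : Measure Ω) [IsProbabilityMeasure P]
      (K : V d → Ω → ℕ), Unif P d (d ^ 2 + d + 1) K → ∀ᵐ ω ∂P, Recurrent (cfg (ex d) K ω)) ∧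
  (∀ d L : ℕ, 1 ≤ L → ∃ (Ω : Type) (_ : MeasurableSpace Ω) (P : Measure Ω)
    (_ : IsProbabilityMeasure P) (K : V d → Ω → ℕ), Unif P d L K)

theorem zinf_sh {d : ℕ} {a : ℕ → Fin (d + 1)} (h : Zinf a) (s : ℕ) : Zinf (sh a s) := by
  intro N
  obtain ⟨x, hx, hx0⟩ := h (N + s)
  refine ⟨x - s, by omega, ?_⟩
  unfold sh
  rw [Nat.sub_add_cancel (by omega)]
  exact hx0

theorem assembly (hDet1 : TDet1) (hDet2 : TDet2) (hTot0 : TTot0) (hSurv : TSurv) (hDie : TDie)
    (hExN : TExN) (hExS : TExS) (hExist : TExist) : Final := by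
  have hA : ∀ (d L : ℕ) (a : ℕ → Fin (d + 1)), 1 ≤ L → Nondeg a → Per L a →
    4 * ((range L).filter (fun x => a x = 0)).card ≤ L →
    ∀ (Ω : Type) [MeasurableSpace Ω] (P : Measure Ω) [IsProbabilityMeasure P]
      (K : V d → Ω → ℕ), Unif P d L K → ∀ᵐ ω ∂P, ¬ Recurrent (cfg a K ω) := by
    intro d L a hL hN hP h4 Ω _ P _ K hU
    have hz : Zinf a := hN 0
    filter_upwards [hSurv Ω P d L K hU a hP hz hL h4] with ω hω hrec
    apply hω
    intro n
    obtain ⟨m, hm⟩ := hDet1 d (cfg a K ω) (fun v => zinf_sh hz _) hrec n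
    exact ⟨m, (hTot0 d (cfg a K ω) n m).2 hm⟩
  refine ⟨hA, ?_, ?_, hExist⟩
  · intro d L a hd hL hN hP hb Ω _ P _ K hU
    refine hA d L a hL hN hP ?_ Ω P K hU
    have h1 : L = ∑ r : Fin (d + 1), ((range L).filter (fun x => a x = r)).card := by
      rw [← Finset.card_eq_sum_card_fiberwise (f := a) (s := range L) (t := univ)
        (fun x _ => by simp)]
      simp
    have h2 : ∑ r : Fin (d + 1), ((range L).filter (fun x => a x = r)).card
        = (d + 1) * ((range L).filter (fun x => a x = 0)).card := by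
      rw [Finset.sum_congr rfl (fun r _ => hb r)]
      simp
    rw [h2] at h1
    calc 4 * ((range L).filter (fun x => a x = 0)).card
        ≤ (d + 1) * ((range L).filter (fun x => a x = 0)).card :=
          Nat.mul_le_mul_right _ (by omega)
      _ = L := h1.symm
  · intro d
    refine ⟨(hExN d).1, (hExN d).2, ?_⟩
    intro Ω _ P _ K hU
    have hz : Zinf (ex d) := (hExN d).1 0
    filter_upwards [hDie Ω P d (d ^ 2 + d + 1) K hU (ex d) hz (by omega) (d ^ 2 + d) (by omega)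
      (hExS d)] with ω hω
    apply hDet2 d (cfg (ex d) K ω) (fun v => zinf_sh hz _)
    intro n
    obtain ⟨m, hm⟩ := hω n
    exact ⟨m, (hTot0 d _ n m).1 hm⟩

end Pool.Agent.Q210.RWT
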