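import Mathlib

/-!
Blueprint MP_c4c6a0_pr (rotor walks on d-ary trees, uniform shift model).
(A) if at most a quarter of the entries of the L-periodic sequence are 0 (all balanced sequences
with d >= 3), the walk is a.s. transient; (B) for every d some nondegenerate periodic sequence
(0^M,1,...,d) gives an a.s. recurrent walk.  Departures are indexed from 0.
-/

namespace Pool.Agent.Q210.RWT

open MeasureTheory ProbabilityTheory Finset

/-- vertices of the rooted d-ary tree, last step first; `[]` is the root -/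
abbrev V (d : ℕ) := List (Fin d)

/-- neighbour `r` of `v`: `0` is the parent (the root itself for the root), `i+1` the i-th child -/
def nb {d : ℕ} (v : V d) (r : Fin (d + 1)) : V d :=
  Fin.cases v.tail (fun i => i :: v) r

/-- the rotor walk: position and number of past departures from every vertex; `A v x` is the
direction of the departure number `x = 0, 1, ...` from `v` -/
def walk {d : ℕ} (A : V d → ℕ → Fin (d + 1)) : ℕ → V d × (V d → ℕ)
  | 0 => ([], fun _ => 0)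
  | t + 1 => (nb (walk A t).1 (A (walk A t).1 ((walk A t).2 (walk A t).1)),
      Function.update (walk A t).2 (walk A t).1 ((walk A t).2 (walk A t).1 + 1))

/-- the walk visits the root infinitely often -/
def Recurrent {d : ℕ} (A : V d → ℕ → Fin (d + 1)) : Prop := ∀ N, ∃ t, N ≤ t ∧ (walk A t).1 = []

def Nondeg {d : ℕ} (a : ℕ → Fin (d + 1)) : Prop := ∀ r, ∀ N, ∃ x, N ≤ x ∧ a x = r

def Per {d : ℕ} (L : ℕ) (a : ℕ → Fin (d + 1)) : Prop := ∀ x, a (x + L) = a x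

/-- independent uniform shifts -/
structure Unif {Ω : Type} [MeasurableSpace Ω] (P : Measure Ω) (d L : ℕ) (K : V d → Ω → ℕ) :
    Prop where
  meas : ∀ v, Measurable (K v)
  ind : iIndepFun K P
  unif : ∀ v, ∀ s < L, P {ω | K v ω = s} = (L : ENNReal)⁻¹

def sh {d : ℕ} (a : ℕ → Fin (d + 1)) (s : ℕ) : ℕ → Fin (d + 1) := fun x => a (x + s)

/-- the random configuration -/
def cfg {Ω : Type} {d : ℕ} (a : ℕ → Fin (d + 1)) (K : V d → Ω → ℕ) (ω : Ω) :
    V d → ℕ → Fin (d + 1) := fun v => sh a (K v ω)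

def Zinf {d : ℕ} (b : ℕ → Fin (d + 1)) : Prop := ∀ N, ∃ x, N ≤ x ∧ b x = 0

/-- zeros among the first c entries -/
def zc {d : ℕ} (b : ℕ → Fin (d + 1)) (c : ℕ) : ℕ := ((range c).filter (fun x => b x = 0)).card

/-- entries i+1 among the first c entries -/
def uc {d : ℕ} (b : ℕ → Fin (d + 1)) (i : Fin d) (c : ℕ) : ℕ :=
  ((range c).filter (fun x => b x = i.succ)).card

/-- number of entries up to and including the k-th zero -/
noncomputable def zpos {d : ℕ} (b : ℕ → Fin (d + 1)) : ℕ → ℕ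
  | 0 => 0
  | k + 1 => Nat.nth (fun x => b x = 0) k + 1

/-- number of times v is entered from its parent until n zero-departures at the root -/
noncomputable def flow {d : ℕ} (A : V d → ℕ → Fin (d + 1)) (n : ℕ) : V d → ℕ
  | [] => n
  | i :: v => uc (A v) i (zpos (A v) (flow A n v))

/-! ### A. sequences -/

/-- `Nat.count_eq_card_filter_range`, `Nat.count_nth_of_infinite` -/
def TZ1 : Prop := ∀ (d : ℕ) (b : ℕ → Fin (d + 1)), Zinf b → ∀ k, zc b (zpos b k) = k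

/-- `Nat.lt_nth_iff_count_lt` etc. -/
def TZ2 : Prop := ∀ (d : ℕ) (b : ℕ → Fin (d + 1)), Zinf b → ∀ c k, zc b c < k ↔ c < zpos b k

/-- every entry is 0 or some i+1 -/
def TZ3 : Prop := ∀ (d : ℕ) (b : ℕ → Fin (d + 1)) (c : ℕ), ∑ i, uc b i c + zc b c = c

/-! ### B. the walk (deterministic); c t v = (walk A t).2 v -/

/-- crossings of the edge (v, i::v); induction on t, cases on the direction -/
def TCross : Prop := ∀ (d : ℕ) (A : V d → ℕ → Fin (d + 1)) (t : ℕ) (v : V d) (i : Fin d),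
  uc (A v) i ((walk A t).2 v) = zc (A (i :: v)) ((walk A t).2 (i :: v)) +
    if (i :: v) <:+ (walk A t).1 then 1 else 0

/-- if the particle is not in the subtree of w then the last departure from w was a zero;
induction on t -/
def TLast : Prop := ∀ (d : ℕ) (A : V d → ℕ → Fin (d + 1)), (∀ v, Zinf (A v)) → ∀ (t : ℕ) (w : V d),
  ¬ (w <:+ (walk A t).1) → (walk A t).2 w = zpos (A w) (zc (A w) ((walk A t).2 w))

def TSum : Prop := ∀ (d : ℕ) (A : V d → ℕ → Fin (d + 1)) (t : ℕ) (F : Finset (V d)),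
  (∀ v, v ∉ F → (walk A t).2 v = 0) → ∑ v ∈ F, (walk A t).2 v = t

def TLen : Prop := ∀ (d : ℕ) (A : V d → ℕ → Fin (d + 1)) (t : ℕ) (w : V d),
  (walk A t).2 w ≠ 0 → w.length ≤ t

/-- (a visit to the root at time t gives a departure from the root) -/
def TRecZ : Prop := ∀ (d : ℕ) (A : V d → ℕ → Fin (d + 1)), Zinf (A []) →
  (Recurrent A ↔ ∀ n, ∃ t, n ≤ zc (A []) ((walk A t).2 []))

/-- dep TRecZ, TZ1 .. TZ2: the time just after the n-th zero departure at the root -/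
def TReach : Prop := ∀ (d : ℕ) (A : V d → ℕ → Fin (d + 1)), Zinf (A []) → Recurrent A →
  ∀ n, ∃ t, (walk A t).1 = [] ∧ (walk A t).2 [] = zpos (A []) n

/-- deps TCross, TLast, TLen, TReach, TZ1: with t of TReach, by induction on v:
c t v = zpos (A v) (flow A n v) and zc = flow; flow = 0 if v.length > t -/
def TDet1 : Prop := ∀ (d : ℕ) (A : V d → ℕ → Fin (d + 1)), (∀ v, Zinf (A v)) → Recurrent A →
  ∀ n, ∃ m, ∀ v : V d, m ≤ v.length → flow A n v = 0

/-- deps TCross, TLast, TZ2 (uc monotone): induction on v -/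
def TBd : Prop := ∀ (d : ℕ) (A : V d → ℕ → Fin (d + 1)), (∀ v, Zinf (A v)) → ∀ n t,
  zc (A []) ((walk A t).2 []) < n → ∀ v, (walk A t).2 v ≤ zpos (A v) (flow A n v)

/-- deps TBd, TSum, TRecZ: otherwise t = sum of c t v ≤ constant for all t (F = all lists of
length < m, `List.finite_length_lt`) -/
def TDet2 : Prop := ∀ (d : ℕ) (A : V d → ℕ → Fin (d + 1)), (∀ v, Zinf (A v)) →
  (∀ n, ∃ m, ∀ v : V d, m ≤ v.length → flow A n v = 0) → Recurrent A

/-! ### C. counting for periodic sequences -/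

/-- deps TZ1, TZ2 (uniqueness of zpos: zc (b) over a period from s is zc a L) -/
def TPer : Prop := ∀ (d L : ℕ) (a : ℕ → Fin (d + 1)), Per L a → Zinf a → ∀ s k,
  zpos (sh a s) (k + zc a L) = zpos (sh a s) k + L

/-- dep TZ2: the x counted have zc (sh a s) (x - s) < k -/
def TCls : Prop := ∀ (d L : ℕ) (a : ℕ → Fin (d + 1)), Per L a → Zinf a → ∀ W s k, 1 ≤ k →
  ((Ico s W).filter (fun x => zc a x / k = zc a s / k)).card ≤ zpos (sh a s) k

/-- periodicity of s ↦ zpos (sh a s) k -/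
def TRep : Prop := ∀ (d L : ℕ) (a : ℕ → Fin (d + 1)), Per L a → ∀ k,
  ∑ s ∈ range (L * k), zpos (sh a s) k = k * ∑ s ∈ range L, zpos (sh a s) k

/-- Cauchy-Schwarz: sum of squares of the n class sizes is ≥ W^2/n; pairs s ≤ x are
(sum of squares + W)/2 -/
def TCS : Prop := ∀ (W n : ℕ) (f : ℕ → ℕ), (∀ x < W, f x < n) →
  W ^ 2 + n * W ≤ 2 * n * ∑ s ∈ range W, ((Ico s W).filter (fun x => f x = f s)).card

/-- deps TCls, TRep, TCS with W = L * k, f x = zc a x / k < zc a L -/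
def TLow : Prop := ∀ (d L : ℕ) (a : ℕ → Fin (d + 1)), Per L a → Zinf a → 1 ≤ L →
  4 * zc a L ≤ L → ∀ k, 1 ≤ k → (4 * k + 1) * L ≤ 2 * ∑ s ∈ range L, zpos (sh a s) k

/-- deps TLow, TPer; with z = zc a L ≥ 1: k = q z + r, zpos(k) = zpos(r) + q L; for q = 0 use
r + 1/2 ≥ (1 + 1/(2z)) r, for q ≥ 1 r + 3 q z ≥ 2 k -/
def TMean : Prop := ∀ (d L : ℕ) (a : ℕ → Fin (d + 1)), Per L a → Zinf a → 1 ≤ L →
  4 * zc a L ≤ L → ∀ k, (2 * zc a L + 1) * (k * L) + 2 * zc a L * (k * L) ≤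
    2 * zc a L * ∑ s ∈ range L, zpos (sh a s) k

/-- deps TPer, TZ1, TZ2: for s ≤ s' ≤ s + L: zpos s k ≤ zpos s' k + (s' - s) -/
def TOsc : Prop := ∀ (d L : ℕ) (a : ℕ → Fin (d + 1)), Per L a → Zinf a → ∀ k, ∀ s s' : ℕ,
  zpos (sh a s) k ≤ zpos (sh a s') k + L

/-! ### D. the recurrent example -/

/-- period word (0^(d^2+1), 1, ..., d) -/
def ex (d : ℕ) (x : ℕ) : Fin (d + 1) :=
  Fin.ofNat (d + 1) (x % (d ^ 2 + d + 1) - d ^ 2)

def TExN : Prop := ∀ d : ℕ, Nondeg (ex d) ∧ Per (d ^ 2 + d + 1) (ex d)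

/-- deps TZ1, TZ2, TPer possible: for s ≤ d^2: zpos = k + 1 + d ((s + k) / (d^2+1)); for
s = d^2 + 1 + j: zpos = k + 1 + (d - j) + d (k / (d^2+1)) -/
def TExZ : Prop := ∀ d : ℕ, (∀ s k, s ≤ d ^ 2 →
    zpos (sh (ex d) s) (k + 1) = k + 1 + d * ((s + k) / (d ^ 2 + 1))) ∧
  (∀ j k, j < d → zpos (sh (ex d) (d ^ 2 + 1 + j)) (k + 1) =
    k + 1 + (d - j) + d * (k / (d ^ 2 + 1)))

/-- dep TExZ; sum over s < M of (s + m) / M is m (Hermite, M = d^2+1) -/
def TExS : Prop := ∀ d k : ℕ, ∑ s ∈ range (d ^ 2 + d + 1), zpos (sh (ex d) s) k ≤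
  (d ^ 2 + d + 1) * k + (d ^ 2 + d) * k

/-! ### E. probability -/

/-- total flow in generation m -/
noncomputable def tot {d : ℕ} (A : V d → ℕ → Fin (d + 1)) (n m : ℕ) : ℕ :=
  ∑ w : Fin m → Fin d, flow A n (List.ofFn w)

/-- deps TZ1, TZ3 (sum over Fin (m+1) → Fin d as Fin.cons) -/
def TTot : Prop := ∀ (d : ℕ) (A : V d → ℕ → Fin (d + 1)), (∀ v, Zinf (A v)) → ∀ n m,
  tot A n (m + 1) + tot A n m = ∑ w : Fin m → Fin d, zpos (A (List.ofFn w)) (flow A n (List.ofFn w))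

/-- flow vanishes below a vertex of flow 0 -/
def TTot0 : Prop := ∀ (d : ℕ) (A : V d → ℕ → Fin (d + 1)) (n m : ℕ),
  tot A n m = 0 ↔ ∀ v : V d, m ≤ v.length → flow A n v = 0

/-- existence (Measure.infinitePi of the uniform measure on Fin L, iIndepFun_infinitePi) -/
def TExist : Prop := ∀ d L : ℕ, 1 ≤ L → ∃ (Ω : Type) (_ : MeasurableSpace Ω) (P : Measure Ω)
  (_ : IsProbabilityMeasure P) (K : V d → Ω → ℕ), Unif P d L K

/-- measurability: flow is a function of finitely many K's (induction on v) -/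
def TMeas : Prop := ∀ (Ω : Type) [MeasurableSpace Ω] (P : Measure Ω) (d L : ℕ) (K : V d → Ω → ℕ),
  Unif P d L K → ∀ (a : ℕ → Fin (d + 1)) n v, Measurable (fun ω => flow (cfg a K ω) n v)

/-- generation m flows are independent of generation m shifts: flow at v depends only on K u with
u.length < v.length; `iIndepFun.indepFun_finset`, then compose -/
def TInd : Prop := ∀ (Ω : Type) [MeasurableSpace Ω] (P : Measure Ω) [IsProbabilityMeasure P]
  (d L : ℕ) (K : V d → Ω → ℕ), Unif P d L K → ∀ (a : ℕ → Fin (d + 1)) (n m : ℕ),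
  IndepFun (fun ω (w : Fin m → Fin d) => flow (cfg a K ω) n (List.ofFn w))
    (fun ω (w : Fin m → Fin d) => K (List.ofFn w) ω) P

/-- deps TInd, TTot, TMeas: expectation of the next generation -/
def TExp : Prop := ∀ (Ω : Type) [MeasurableSpace Ω] (P : Measure Ω) [IsProbabilityMeasure P]
  (d L : ℕ) (K : V d → Ω → ℕ), Unif P d L K → ∀ (a : ℕ → Fin (d + 1)), Zinf a → 1 ≤ L → ∀ q : ℕ,
  (∀ k, ∑ s ∈ range L, zpos (sh a s) k ≤ L * k + q * k) → ∀ n m,
  (L : ENNReal) * ∫⁻ ω, (tot (cfg a K ω) n (m + 1) : ENNReal) ∂P ≤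
    q * ∫⁻ ω, (tot (cfg a K ω) n m : ENNReal) ∂P

/-- deps TExp, TMeas, TTot0: q < L, the expectations tend to 0 geometrically, so a.s. tot = 0
for some m -/
def TDie : Prop := ∀ (Ω : Type) [MeasurableSpace Ω] (P : Measure Ω) [IsProbabilityMeasure P]
  (d L : ℕ) (K : V d → Ω → ℕ), Unif P d L K → ∀ (a : ℕ → Fin (d + 1)), Zinf a → 1 ≤ L → ∀ q < L,
  (∀ k, ∑ s ∈ range L, zpos (sh a s) k ≤ L * k + q * k) →
  ∀ᵐ ω ∂P, ∀ n, ∃ m, tot (cfg a K ω) n m = 0

/-- Chebyshev for a sum of independent variables h w (U w), U w uniform on range L, with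
oscillation ≤ D, vanishing for w outside a set T (variance ≤ D^2 each) -/
def TChe : Prop := ∀ (Ω : Type) [MeasurableSpace Ω] (P : Measure Ω) [IsProbabilityMeasure P]
  (ι : Type) [Fintype ι] (U : ι → Ω → ℕ) (L : ℕ), 1 ≤ L → (∀ w, Measurable (U w)) →
  iIndepFun U P → (∀ w, ∀ s < L, P {ω | U w ω = s} = (L : ENNReal)⁻¹) →
  ∀ (h : ι → ℕ → ℝ) (T : Finset ι) (D δ : ℝ), 0 ≤ D → 0 < δ →
  (∀ w, ∀ s < L, ∀ s' < L, |h w s - h w s'| ≤ D) → (∀ w ∉ T, ∀ s, h w s = 0) →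
  P {ω | ∑ w, h w (U w ω) ≤ ∑ w, (∑ s ∈ range L, h w s) / L - δ} ≤
    ENNReal.ofReal (D ^ 2 * T.card / δ ^ 2)

/-- deps TChe, TInd, TTot, TMean, TOsc, TMeas: one step of growth. Condition on the values x of
the flows of generation m (countable sum over x with sum of x = S ≥ r, TInd), apply TChe with
D = L, T = {x w ≠ 0}, δ = S/(4z): mean ≥ (1 + 1/(2z)) S. C = 16 z^2 L^2. -/
def TStep : Prop := ∀ (Ω : Type) [MeasurableSpace Ω] (P : Measure Ω) [IsProbabilityMeasure P]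
  (d L : ℕ) (K : V d → Ω → ℕ), Unif P d L K → ∀ (a : ℕ → Fin (d + 1)), Per L a → Zinf a → 1 ≤ L →
  4 * zc a L ≤ L → ∀ (n m : ℕ) (r : ℝ), 0 < r →
  P {ω | r ≤ tot (cfg a K ω) n m ∧
      (tot (cfg a K ω) n (m + 1) : ℝ) < (1 + 1 / (4 * (zc a L : ℝ))) * tot (cfg a K ω) n m} ≤
    ENNReal.ofReal (16 * (zc a L : ℝ) ^ 2 * (L : ℝ) ^ 2 / r)

/-- pure real/measure lemma: X m ω ≥ 0 with X 0 = n ≥ 1 and the step bound for all r has
P(some X m = 0) ≤ C'/n with C' = C ρ/(ρ-1): off the union of the bad events with r = n ρ^m,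
X m ≥ n ρ^m by induction -/
def TGrow : Prop := ∀ (Ω : Type) [MeasurableSpace Ω] (P : Measure Ω) [IsProbabilityMeasure P]
  (X : ℕ → Ω → ℝ) (n C ρ : ℝ), 0 < n → 0 ≤ C → 1 < ρ → (∀ ω, X 0 ω = n) →
  (∀ m, ∀ r : ℝ, 0 < r → P {ω | r ≤ X m ω ∧ X (m + 1) ω < ρ * X m ω} ≤ ENNReal.ofReal (C / r)) →
  P {ω | ∃ m, X m ω = 0} ≤ ENNReal.ofReal (C * ρ / (ρ - 1) / n)

/-- deps TStep, TGrow: P(for all n some m with tot = 0) ≤ C'/n for every n -/
def TSurv : Prop := ∀ (Ω : Type) [MeasurableSpace Ω] (P : Measure Ω) [IsProbabilityMeasure P]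
  (d L : ℕ) (K : V d → Ω → ℕ), Unif P d L K → ∀ (a : ℕ → Fin (d + 1)), Per L a → Zinf a → 1 ≤ L →
  4 * zc a L ≤ L → ∀ᵐ ω ∂P, ¬ ∀ n, ∃ m, tot (cfg a K ω) n m = 0

end Pool.Agent.Q210.RWT
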