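import Pool.Agent.Q210.RWT.Stmts

set_option autoImplicit false

open MeasureTheory ProbabilityTheory Finset

namespace Pool.Agent.Q210.RWT.PTBd

open Pool.Agent.Q210.RWT

theorem uc_mono {d : ℕ} (b : ℕ → Fin (d + 1)) (i : Fin d) {c c' : ℕ} (h : c ≤ c') :
    uc b i c ≤ uc b i c' := by
  unfold uc
  exact Finset.card_le_card (Finset.filter_subset_filter _ (Finset.range_mono h))

theorem zpos_mono (hZ : Pool.Agent.Q210.RWT.TZ2) {d : ℕ} (b : ℕ → Fin (d + 1)) (hb : Zinf b)
    {k k' : ℕ} (h : k ≤ k') : zpos b k ≤ zpos b k' := by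
  refine le_of_forall_lt fun c hc => ?_
  exact (hZ d b hb c k').1 (((hZ d b hb c k).2 hc).trans_le h)

theorem main (hC : Pool.Agent.Q210.RWT.TCross) (hL : Pool.Agent.Q210.RWT.TLast)
    (hZ : Pool.Agent.Q210.RWT.TZ2) : Pool.Agent.Q210.RWT.TBd := by
  intro d A hA n t hn v
  induction v with
  | nil =>
    show (walk A t).2 [] ≤ zpos (A []) n
    exact ((hZ d (A []) (hA []) _ n).1 hn).le
  | cons i w ih =>
    have h1 := hC d A t w i
    have h2 : uc (A w) i ((walk A t).2 w) ≤ flow A n (i :: w) := uc_mono (A w) i ih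
    by_cases hs : (i :: w) <:+ (walk A t).1
    · rw [if_pos hs] at h1
      exact ((hZ d _ (hA (i :: w)) _ _).1 (by omega)).le
    · rw [if_neg hs] at h1
      rw [hL d A hA t (i :: w) hs]
      exact zpos_mono hZ _ (hA (i :: w)) (by omega)

end Pool.Agent.Q210.RWT.PTBd
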