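import Pool.Agent.Q210.RWT.Stmts

set_option autoImplicit false

namespace Pool.Agent.Q210.RWT.PTCS

open Pool.Agent.Q210.RWT MeasureTheory ProbabilityTheory Finset

theorem main : Pool.Agent.Q210.RWT.TCS := by
  intro W n f hf
  classical
  have h1 : ∀ s ∈ range W, ((Ico s W).filter (fun x => f x = f s)).card =
      ∑ x ∈ range W, (if s ≤ x ∧ f x = f s then 1 else 0) := by
    intro s hs
    rw [Finset.sum_boole]
    simp only [Nat.cast_id]
    congr 1
    ext x
    simp only [Finset.mem_filter, Finset.mem_Ico, Finset.mem_range]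
    tauto
  rw [Finset.sum_congr rfl h1]
  have h2 : (∑ s ∈ range W, ∑ x ∈ range W, (if s ≤ x ∧ f x = f s then 1 else 0)) +
      (∑ s ∈ range W, ∑ x ∈ range W, (if s ≤ x ∧ f x = f s then 1 else 0)) =
      (∑ s ∈ range W, ∑ x ∈ range W, (if f x = f s then 1 else 0)) + W := by
    have e1 : (∑ s ∈ range W, ∑ x ∈ range W, (if s ≤ x ∧ f x = f s then 1 else 0)) =
        ∑ s ∈ range W, ∑ x ∈ range W, (if x ≤ s ∧ f s = f x then 1 else 0) := Finset.sum_comm
    have e2 : ∑ s ∈ range W, ∑ x ∈ range W, (if x = s then 1 else 0) = W := by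
      rw [Finset.sum_congr rfl (fun s hs => by
        rw [Finset.sum_ite_eq' (range W) s (fun _ => 1), if_pos hs])]
      simp
    conv_lhs => rw [e1]
    conv_lhs => lhs; rw [← e1]
    conv_rhs => rhs; rw [← e2]
    rw [← Finset.sum_add_distrib, ← Finset.sum_add_distrib]
    refine Finset.sum_congr rfl fun s _ => ?_
    rw [← Finset.sum_add_distrib, ← Finset.sum_add_distrib]
    refine Finset.sum_congr rfl fun x _ => ?_
    by_cases hfx : f x = f s
    · rcases Nat.lt_trichotomy x s with h | h | h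
      · rw [if_neg (by omega), if_pos ⟨h.le, hfx.symm⟩, if_pos hfx, if_neg (by omega)]
      · rw [if_pos ⟨h.ge, hfx⟩, if_pos ⟨h.le, hfx.symm⟩, if_pos hfx, if_pos h]
      · rw [if_pos ⟨h.le, hfx⟩, if_neg (by omega), if_pos hfx, if_neg (by omega)]
    · have hne : x ≠ s := fun h => hfx (by rw [h])
      rw [if_neg (fun h => hfx h.2), if_neg (fun h => hfx h.2.symm), if_neg hfx, if_neg hne]
  have h3 : (∑ s ∈ range W, ∑ x ∈ range W, (if f x = f s then 1 else 0)) =
      ∑ i ∈ range n, (∑ x ∈ range W, (if f x = i then 1 else 0)) ^ 2 := by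
    have e : ∀ i ∈ range n, (∑ x ∈ range W, (if f x = i then 1 else 0)) ^ 2 =
        ∑ s ∈ range W, ∑ x ∈ range W, (if f s = i then (if f x = i then 1 else 0) else 0) := by
      intro i _
      rw [sq, Finset.sum_mul_sum]
      refine Finset.sum_congr rfl fun s _ => Finset.sum_congr rfl fun x _ => ?_
      split_ifs <;> rfl
    rw [Finset.sum_congr rfl e]
    conv_rhs => rw [Finset.sum_comm]
    refine Finset.sum_congr rfl fun s hs => ?_
    conv_rhs => rw [Finset.sum_comm]
    refine Finset.sum_congr rfl fun x _ => ?_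
    rw [Finset.sum_ite_eq (range n) (f s) (fun i => if f x = i then 1 else 0),
      if_pos (Finset.mem_range.2 (hf s (Finset.mem_range.1 hs)))]
  have h4 : ∑ i ∈ range n, (∑ x ∈ range W, (if f x = i then 1 else 0)) = W := by
    rw [Finset.sum_comm]
    rw [Finset.sum_congr rfl (fun x hx => by
      rw [Finset.sum_ite_eq (range n) (f x) (fun _ => 1),
        if_pos (Finset.mem_range.2 (hf x (Finset.mem_range.1 hx)))])]
    simp
  have h5 : W ^ 2 ≤ n * ∑ i ∈ range n, (∑ x ∈ range W, (if f x = i then 1 else 0)) ^ 2 := by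
    have h := sq_sum_le_card_mul_sum_sq (s := range n)
      (f := fun i => (∑ x ∈ range W, (if f x = i then 1 else 0) : ℕ))
    rw [h4, Finset.card_range] at h
    exact h
  rw [← h3] at h5
  nlinarith [h2, h5]

end Pool.Agent.Q210.RWT.PTCS
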