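import Pool.Agent.Q210.RWT.Stmts

/-! helper292: TChe of the blueprint RWT (MP_c4c6a0_pr). -/

namespace Pool.Agent.Q210.RWT.PTChe

open Pool.Agent.Q210.RWT MeasureTheory ProbabilityTheory Finset

theorem main : Pool.Agent.Q210.RWT.TChe := by
  intro Ω _ P _ ι _ U L hL hU hind hunif h T D δ hD hδ hosc hT
  classical
  have hL0 : (L : ENNReal) ≠ 0 := by
    simp; omega
  have hLr : (0 : ℝ) < L := by exact_mod_cast hL
  -- a.s. U w < L
  have hae : ∀ w, ∀ᵐ ω ∂P, U w ω < L := by
    intro w
    have hm : MeasurableSet {ω | U w ω < L} := hU w measurableSet_Iio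
    have h1 : P {ω | U w ω < L} = 1 := by
      have e : {ω | U w ω < L} = ⋃ s ∈ range L, {ω | U w ω = s} := by
        ext ω; simp
      rw [e, measure_biUnion_finset]
      · rw [Finset.sum_congr rfl (fun s hs => hunif w s (Finset.mem_range.mp hs))]
        simp only [Finset.sum_const, Finset.card_range, nsmul_eq_mul]
        exact ENNReal.mul_inv_cancel hL0 (ENNReal.natCast_ne_top L)
      · intro s _ s' _ hss
        rw [Function.onFun, Set.disjoint_left]
        intro ω h1 h2
        exact hss (h1.symm.trans h2)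
      · intro s _
        exact hU w (measurableSet_singleton s)
    rw [ae_iff]
    have := (prob_compl_eq_zero_iff hm (μ := P)).mpr h1
    exact this
  let g : ι → ℕ → ℝ := fun w u => ∑ s ∈ range L, if u = s then h w s else 0
  have hg : ∀ w u, u < L → g w u = h w u := by
    intro w u hu
    simp only [g]
    rw [Finset.sum_ite_eq]
    simp [hu]
  let X : ι → Ω → ℝ := fun w => g w ∘ U w
  have hXm : ∀ w, Measurable (X w) := fun w => (measurable_from_nat).comp (hU w)
  have hXi : iIndepFun X P := hind.comp g (fun _ => measurable_from_nat)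
  let m : ι → ℝ := fun w => (∑ s ∈ range L, h w s) / L
  have hmD : ∀ w, ∀ s < L, |h w s - m w| ≤ D := by
    intro w s hs
    have e : h w s - m w = (∑ s' ∈ range L, (h w s - h w s')) / L := by
      simp only [m, Finset.sum_sub_distrib, Finset.sum_const, Finset.card_range, nsmul_eq_mul]
      field_simp
    rw [e, abs_div, abs_of_pos hLr, div_le_iff₀ hLr]
    calc |∑ s' ∈ range L, (h w s - h w s')| ≤ ∑ s' ∈ range L, |h w s - h w s'| :=
          Finset.abs_sum_le_sum_abs _ _
      _ ≤ ∑ s' ∈ range L, D := Finset.sum_le_sum (fun s' hs' =>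
          hosc w s hs s' (Finset.mem_range.mp hs'))
      _ = D * L := by simp [mul_comm]
  have hXb : ∀ w, ∀ᵐ ω ∂P, X w ω ∈ Set.Icc (m w - D) (m w + D) := by
    intro w
    filter_upwards [hae w] with ω hω
    have h1 := hmD w _ hω
    have h2 : X w ω = h w (U w ω) := hg w _ hω
    rw [h2]
    rw [abs_le] at h1
    constructor <;> linarith [h1.1, h1.2]
  have hX2 : ∀ w, MemLp (X w) 2 P := by
    intro w
    refine MemLp.of_bound (hXm w).aestronglyMeasurable (|m w| + D) ?_
    filter_upwards [hXb w] with ω hω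
    rw [Real.norm_eq_abs, abs_le]
    have := neg_abs_le (m w)
    have := le_abs_self (m w)
    constructor <;> linarith [hω.1, hω.2]
  have hmean : ∀ w, ∫ ω, X w ω ∂P = m w := by
    intro w
    have e : ∀ ω, X w ω = ∑ s ∈ range L, Set.indicator {ω | U w ω = s} (fun _ => h w s) ω := by
      intro ω
      simp only [X, g, Function.comp, Set.indicator, Set.mem_setOf_eq]
    have hms : ∀ s, MeasurableSet {ω | U w ω = s} := fun s => hU w (measurableSet_singleton s)
    simp_rw [e]
    rw [integral_finset_sum]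
    · have : ∀ s ∈ range L, ∫ ω, Set.indicator {ω | U w ω = s} (fun _ => h w s) ω ∂P
          = h w s / L := by
        intro s hs
        rw [integral_indicator_const _ (hms s)]
        simp only [Measure.real, hunif w s (Finset.mem_range.mp hs)]
        simp
        ring
      rw [Finset.sum_congr rfl this, ← Finset.sum_div]
    · intro s _
      exact (integrable_const _).indicator (hms s)
  have hvar : ∀ w, Var[X w; P] ≤ D ^ 2 := by
    intro w
    have := variance_le_sq_of_bounded (hXb w) (hXm w).aemeasurable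
    refine this.trans (le_of_eq ?_)
    ring
  have hXT : ∀ w ∉ T, X w = 0 := by
    intro w hw
    funext ω
    simp [X, g, hT w hw]
  have hmT : ∀ w ∉ T, m w = 0 := by
    intro w hw
    simp [m, hT w hw]
  -- the sum
  have hS2 : MemLp (∑ w ∈ T, X w) 2 P := memLp_finset_sum' _ (fun w _ => hX2 w)
  have hvs : Var[∑ w ∈ T, X w; P] ≤ D ^ 2 * T.card := by
    rw [IndepFun.variance_sum (fun w _ => hX2 w)
      (fun i _ j _ hij => hXi.indepFun hij)]
    calc ∑ w ∈ T, Var[X w; P] ≤ ∑ w ∈ T, D ^ 2 := Finset.sum_le_sum (fun w _ => hvar w)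
      _ = D ^ 2 * T.card := by simp [mul_comm]
  have hmS : ∫ ω, (∑ w ∈ T, X w) ω ∂P = ∑ w ∈ T, m w := by
    simp_rw [Finset.sum_apply]
    rw [integral_finset_sum _ (fun w _ => (hX2 w).integrable (by norm_num))]
    exact Finset.sum_congr rfl (fun w _ => hmean w)
  have hch := meas_ge_le_variance_div_sq hS2 hδ
  have hmono : P {ω | ∑ w, h w (U w ω) ≤ ∑ w, (∑ s ∈ range L, h w s) / L - δ} ≤
      P {ω | δ ≤ |(∑ w ∈ T, X w) ω - ∫ ω, (∑ w ∈ T, X w) ω ∂P|} := by
    apply measure_mono_ae
    have hall : ∀ᵐ ω ∂P, ∀ w, U w ω < L := ae_all_iff.mpr hae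
    filter_upwards [hall] with ω hω
    intro hle
    have hle' : ∑ w, h w (U w ω) ≤ ∑ w, m w - δ := hle
    show δ ≤ |(∑ w ∈ T, X w) ω - ∫ ω, (∑ w ∈ T, X w) ω ∂P|
    rw [hmS, Finset.sum_apply]
    have e1 : ∑ w, h w (U w ω) = ∑ w ∈ T, X w ω := by
      have : ∀ w, h w (U w ω) = X w ω := fun w => (hg w _ (hω w)).symm
      simp_rw [this]
      symm
      apply Finset.sum_subset (Finset.subset_univ T)
      intro w _ hw
      rw [hXT w hw]; rfl
    have e2 : ∑ w, m w = ∑ w ∈ T, m w := by
      symm
      apply Finset.sum_subset (Finset.subset_univ T)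
      intro w _ hw
      exact hmT w hw
    rw [e1, e2] at hle'
    have := neg_abs_le (∑ w ∈ T, X w ω - ∑ w ∈ T, m w)
    linarith
  refine hmono.trans (hch.trans ?_)
  apply ENNReal.ofReal_le_ofReal
  gcongr

end Pool.Agent.Q210.RWT.PTChe
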