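import Pool.Agent.Q210.RWT.Stmts

namespace Pool.Agent.Q210.RWT.PTCls

open MeasureTheory ProbabilityTheory Finset
open Pool.Agent.Q210.RWT

theorem zc_add {d : ℕ} (a : ℕ → Fin (d + 1)) (s t : ℕ) :
    zc a (s + t) = zc a s + zc (sh a s) t := by
  have h : ∀ (b : ℕ → Fin (d + 1)) (c : ℕ), zc b c = Nat.count (fun x => b x = 0) c := by
    intro b c
    unfold zc
    rw [Nat.count_eq_card_filter_range]
  rw [h, h, h, Nat.count_add]
  congr 1
  unfold sh
  simp only [add_comm]

theorem main (hZ2 : TZ2) : Pool.Agent.Q210.RWT.TCls := by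
  intro d L a hper hz W s k hk
  have hzs : Zinf (sh a s) := by
    intro N
    obtain ⟨x, hx, h0⟩ := hz (N + s)
    refine ⟨x - s, by omega, ?_⟩
    unfold sh
    rw [Nat.sub_add_cancel (by omega)]
    exact h0
  have hsub : (Ico s W).filter (fun x => zc a x / k = zc a s / k) ⊆
      Ico s (s + zpos (sh a s) k) := by
    intro x hx
    rw [mem_filter, mem_Ico] at hx
    obtain ⟨⟨h1, h2⟩, h3⟩ := hx
    rw [mem_Ico]
    refine ⟨h1, ?_⟩
    have h4 : zc a x = zc a s + zc (sh a s) (x - s) := by
      rw [← zc_add, Nat.add_sub_cancel' h1]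
    have h5 : zc a x < zc a s + k := by
      have e1 := Nat.div_add_mod (zc a x) k
      have e2 := Nat.div_add_mod (zc a s) k
      have e3 := Nat.mod_lt (zc a x) hk
      rw [h3] at e1
      omega
    have h6 : zc (sh a s) (x - s) < k := by omega
    have h7 := (hZ2 d (sh a s) hzs (x - s) k).1 h6
    omega
  calc _ ≤ (Ico s (s + zpos (sh a s) k)).card := card_le_card hsub
    _ = zpos (sh a s) k := by simp

end Pool.Agent.Q210.RWT.PTCls
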