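import Mathlib
import Pool.Agent.Q210.RWT.Stmts

set_option autoImplicit false

open Finset Pool.Agent.Q210.RWT

namespace Pool.Agent.Q210.RWT.PTCross

lemma uc_succ {d : ℕ} (b : ℕ → Fin (d + 1)) (i : Fin d) (c : ℕ) :
    uc b i (c + 1) = uc b i c + if b c = i.succ then 1 else 0 := by
  unfold uc
  rw [Finset.range_add_one, Finset.filter_insert]
  split_ifs with h
  · rw [Finset.card_insert_of_notMem (by simp)]
  · simp

lemma zc_succ {d : ℕ} (b : ℕ → Fin (d + 1)) (c : ℕ) :
    zc b (c + 1) = zc b c + if b c = 0 then 1 else 0 := by
  unfold zc
  rw [Finset.range_add_one, Finset.filter_insert]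
  split_ifs with h
  · rw [Finset.card_insert_of_notMem (by simp)]
  · simp

lemma not_suff {d : ℕ} (i : Fin d) (v : List (Fin d)) : ¬ (i :: v) <:+ v := by
  intro h
  have := h.length_le
  simp at this

theorem main : Pool.Agent.Q210.RWT.TCross := by
  intro d A t
  induction t with
  | zero =>
    intro v i
    simp [walk, uc, zc]
  | succ t ih =>
    intro v i
    have ih' := ih v i
    obtain ⟨p, c, hw⟩ : ∃ p c, walk A t = (p, c) := ⟨_, _, rfl⟩
    have h1 : (walk A (t + 1)).1 = nb p (A p (c p)) := by simp only [walk, hw]
    have h2 : (walk A (t + 1)).2 = Function.update c p (c p + 1) := by simp only [walk, hw]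
    rw [hw] at ih'
    simp only at ih'
    rw [h1, h2]
    obtain hr | ⟨j, hr⟩ := Fin.eq_zero_or_eq_succ (A p (c p))
    · rw [hr]
      have hnb : nb p 0 = p.tail := rfl
      rw [hnb]
      have hL : uc (A v) i (Function.update c p (c p + 1) v) = uc (A v) i (c v) := by
        by_cases hv : v = p
        · subst hv
          rw [Function.update_self, uc_succ, hr, if_neg (Fin.succ_ne_zero i).symm, add_zero]
        · rw [Function.update_of_ne hv]
      rw [hL, ih']
      by_cases hp : p = i :: v
      · subst hp
        rw [Function.update_self, zc_succ, if_pos hr, if_pos List.suffix_rfl, List.tail_cons,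
          if_neg (not_suff i v)]
      · rw [Function.update_of_ne (Ne.symm hp)]
        congr 1
        have h3 : (i :: v) <:+ p ↔ (i :: v) <:+ p.tail := by
          cases p with
          | nil => simp
          | cons j q =>
            rw [List.suffix_cons_iff, List.tail_cons]
            constructor
            · rintro (h | h)
              · exact absurd h.symm hp
              · exact h
            · intro h
              exact Or.inr h
        simp only [h3]
    · rw [hr]
      have hnb : nb p j.succ = j :: p := rfl
      rw [hnb]
      have hZ : zc (A (i :: v)) (Function.update c p (c p + 1) (i :: v))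
          = zc (A (i :: v)) (c (i :: v)) := by
        by_cases hv : i :: v = p
        · subst hv
          rw [Function.update_self, zc_succ, hr, if_neg (Fin.succ_ne_zero j), add_zero]
        · rw [Function.update_of_ne hv]
      rw [hZ]
      have hiff : (i :: v) <:+ (j :: p) ↔ (i = j ∧ v = p) ∨ (i :: v) <:+ p := by
        rw [List.suffix_cons_iff, List.cons.injEq]
      by_cases hv : v = p
      · subst hv
        rw [Function.update_self, uc_succ, hr, ih', if_neg (not_suff i v)]
        by_cases hij : i = j
        · subst hij
          rw [if_pos rfl, if_pos (hiff.2 (Or.inl ⟨rfl, rfl⟩))]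
        · rw [if_neg, if_neg]
          · rw [hiff]
            rintro (h | h)
            · exact hij h.1
            · exact not_suff i v h
          · intro h
            exact hij (Fin.succ_injective _ h).symm
      · rw [Function.update_of_ne hv, ih']
        congr 1
        have h3 : (i :: v) <:+ p ↔ (i :: v) <:+ (j :: p) := by
          rw [hiff]
          constructor
          · intro h
            exact Or.inr h
          · rintro (h | h)
            · exact absurd h.2 hv
            · exact h
        simp only [h3]

end Pool.Agent.Q210.RWT.PTCross
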