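import Pool.Agent.Q210.RWT.Stmts

namespace Pool.Agent.Q210.RWT.PTDet1

open Pool.Agent.Q210.RWT

theorem main (hC : TCross) (hL : TLast) (hLen : TLen) (hR : TReach) (hZ : TZ1) :
    Pool.Agent.Q210.RWT.TDet1 := by
  intro d A hA hrec n
  obtain ⟨t, ht1, ht2⟩ := hR d A (hA []) hrec n
  have key : ∀ v : V d, (walk A t).2 v = zpos (A v) (flow A n v) ∧
      zc (A v) ((walk A t).2 v) = flow A n v := by
    intro v
    induction v with
    | nil =>
      refine ⟨by rw [ht2]; rfl, ?_⟩
      rw [ht2, hZ d (A []) (hA []) n]; rfl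
    | cons i v ih =>
      have hns : ¬ (i :: v) <:+ (walk A t).1 := by
        rw [ht1]
        intro h
        have := h.length_le
        simp at this
      have h1 := hC d A t v i
      rw [if_neg hns, Nat.add_zero] at h1
      have hf : flow A n (i :: v) = uc (A v) i (zpos (A v) (flow A n v)) := rfl
      have h2 : zc (A (i :: v)) ((walk A t).2 (i :: v)) = flow A n (i :: v) := by
        rw [hf, ← ih.1, h1]
      refine ⟨?_, h2⟩
      have h3 := hL d A hA t (i :: v) hns
      rw [h2] at h3
      exact h3
  refine ⟨t + 1, fun v hv => ?_⟩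
  have h0 : (walk A t).2 v = 0 := by
    by_contra hne
    have := hLen d A t v hne
    omega
  rw [← (key v).2, h0]
  simp [zc]

end Pool.Agent.Q210.RWT.PTDet1
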