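import Pool.Agent.Q210.RWT.Stmts

set_option autoImplicit false

/-! MP_c4c6a0_pr, blueprint of helper210: TDet2 (helper190). -/

namespace Pool.Agent.Q210.RWT.PTDet2

open Pool.Agent.Q210.RWT MeasureTheory ProbabilityTheory Finset

theorem main (hBd : TBd) (hSum : TSum) (hRec : TRecZ) : TDet2 := by
  intro d A hZ hm
  rw [hRec d A (hZ [])]
  by_contra hcon
  push Not at hcon
  obtain ⟨n, hn⟩ := hcon
  obtain ⟨m, hm⟩ := hm n
  have hfin : {l : List (Fin d) | l.length < m}.Finite := List.finite_length_lt (Fin d) m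
  obtain ⟨F, hF⟩ : ∃ F : Finset (List (Fin d)), ∀ v, v ∈ F ↔ v.length < m :=
    ⟨hfin.toFinset, fun v => by rw [Set.Finite.mem_toFinset]; rfl⟩
  have h1 : ∀ t (v : V d), v ∉ F → (walk A t).2 v = 0 := by
    intro t v hv
    have hlen : m ≤ v.length := by
      rw [hF] at hv; exact not_lt.1 hv
    have h := hBd d A hZ n t (hn t) v
    rw [hm v hlen] at h
    exact Nat.le_zero.1 h
  obtain ⟨B, hB⟩ : ∃ B : ℕ, B = ∑ v ∈ F, zpos (A v) (flow A n v) := ⟨_, rfl⟩
  have h2 := hSum d A (B + 1) F (h1 (B + 1))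
  have h3 : ∑ v ∈ F, (walk A (B + 1)).2 v ≤ ∑ v ∈ F, zpos (A v) (flow A n v) :=
    Finset.sum_le_sum fun v _ => hBd d A hZ n _ (hn _) v
  have h4 := h2.symm.le.trans h3
  rw [← hB] at h4
  omega

end Pool.Agent.Q210.RWT.PTDet2
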