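import Pool.Agent.Q210.RWT.Stmts

/-! Blueprint for MP_c4c6a0_pr: extinction of the flow (helper182). -/

open MeasureTheory ProbabilityTheory Finset Filter Topology

namespace Pool.Agent.Q210.RWT.PTDie
open Pool.Agent.Q210.RWT

theorem main (hE : TExp) (hM : TMeas) : Pool.Agent.Q210.RWT.TDie := by
  intro Ω _ P _ d L K hK a ha hL q hq hz
  rw [ae_all_iff]
  intro n
  have hE' := hE Ω P d L K hK a ha hL q hz n
  obtain ⟨E, hEd⟩ : ∃ E : ℕ → ENNReal, ∀ m, E m = ∫⁻ ω, (tot (cfg a K ω) n m : ENNReal) ∂P :=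
    ⟨_, fun _ => rfl⟩
  have hE0 : E 0 = n := by
    rw [hEd]
    have h1 : ∀ ω, tot (cfg a K ω) n 0 = n := by
      intro ω
      unfold tot
      simp [flow]
    simp only [h1, lintegral_const, measure_univ, mul_one]
  have hL0 : (L : ENNReal) ≠ 0 := by
    have : L ≠ 0 := by omega
    exact_mod_cast this
  have hLtop : (L : ENNReal) ≠ ⊤ := ENNReal.natCast_ne_top L
  have hstep : ∀ m, E (m + 1) ≤ ((q : ENNReal) / L) * E m := by
    intro m
    have h := hE' m
    rw [← hEd, ← hEd] at h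
    have h2 : E (m + 1) ≤ (q : ENNReal) * E m / L :=
      (ENNReal.le_div_iff_mul_le (Or.inl hL0) (Or.inl hLtop)).2 (by rw [mul_comm]; exact h)
    refine h2.trans (le_of_eq ?_)
    rw [div_eq_mul_inv, div_eq_mul_inv]
    ring
  have hbd : ∀ m, E m ≤ ((q : ENNReal) / L) ^ m * n := by
    intro m
    induction m with
    | zero => rw [hE0]; simp
    | succ m ih =>
      calc E (m + 1) ≤ ((q : ENNReal) / L) * E m := hstep m
        _ ≤ ((q : ENNReal) / L) * (((q : ENNReal) / L) ^ m * n) := by gcongr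
        _ = ((q : ENNReal) / L) ^ (m + 1) * n := by ring
  have hlt : (q : ENNReal) / L < 1 := by
    refine (ENNReal.div_lt_iff (Or.inl hL0) (Or.inl hLtop)).2 ?_
    rw [one_mul]
    exact_mod_cast hq
  have hlim : Tendsto (fun m : ℕ => ((q : ENNReal) / L) ^ m * n) atTop (𝓝 0) := by
    have h1 := ENNReal.tendsto_pow_atTop_nhds_zero_of_lt_one hlt
    have h2 := ENNReal.Tendsto.mul_const (b := (n : ENNReal)) h1
      (Or.inr (ENNReal.natCast_ne_top n))
    simpa using h2
  have hP : P {ω | ∀ m, tot (cfg a K ω) n m ≠ 0} = 0 := by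
    refine le_antisymm (ge_of_tendsto' hlim fun m => ?_) bot_le
    refine le_trans ?_ (hbd m)
    have hmeas : Measurable (fun ω => (tot (cfg a K ω) n m : ENNReal)) := by
      have h1 : Measurable (fun ω => tot (cfg a K ω) n m) := by
        unfold tot
        exact Finset.measurable_sum _ fun w _ => hM Ω P d L K hK a n _
      exact measurable_from_top.comp h1
    calc P {ω | ∀ m, tot (cfg a K ω) n m ≠ 0} ≤
          P {ω | 1 ≤ (tot (cfg a K ω) n m : ENNReal)} := by
          refine measure_mono fun ω h => ?_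
          have h1 : 1 ≤ tot (cfg a K ω) n m := Nat.one_le_iff_ne_zero.2 (h m)
          show (1 : ENNReal) ≤ (tot (cfg a K ω) n m : ENNReal)
          exact_mod_cast h1
      _ = 1 * P {ω | 1 ≤ (tot (cfg a K ω) n m : ENNReal)} := (one_mul _).symm
      _ ≤ E m := by rw [hEd]; exact mul_meas_ge_le_lintegral hmeas 1
  rw [ae_iff]
  have e : {ω | ¬ ∃ m, tot (cfg a K ω) n m = 0} = {ω | ∀ m, tot (cfg a K ω) n m ≠ 0} := by
    ext ω
    simp
  rw [e]
  exact hP

end Pool.Agent.Q210.RWT.PTDie
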