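import Pool.Agent.Q210.RWT.Stmts

/-! Blueprint for MP_c4c6a0_pr: the recurrent example is nondegenerate and periodic. -/

namespace Pool.Agent.Q210.RWT.PTExN

open Pool.Agent.Q210.RWT

theorem main : Pool.Agent.Q210.RWT.TExN := by
  intro d
  constructor
  · intro r N
    refine ⟨d ^ 2 + r.val + (d ^ 2 + d + 1) * N, ?_, ?_⟩
    · have h : N ≤ (d ^ 2 + d + 1) * N := Nat.le_mul_of_pos_left N (by omega)
      omega
    · have hr := r.isLt
      have h1 : (d ^ 2 + r.val + (d ^ 2 + d + 1) * N) % (d ^ 2 + d + 1) = d ^ 2 + r.val := by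
        rw [Nat.add_mul_mod_self_left]
        exact Nat.mod_eq_of_lt (by omega)
      unfold ex
      rw [h1, Nat.add_sub_cancel_left]
      apply Fin.ext
      show r.val % (d + 1) = r.val
      exact Nat.mod_eq_of_lt hr
  · intro x
    unfold ex
    rw [Nat.add_mod_right]

end Pool.Agent.Q210.RWT.PTExN
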