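import Pool.Agent.Q210.RWT.Stmts

set_option autoImplicit false

namespace Pool.Agent.Q210.RWT.PTExS

open Finset
open Pool.Agent.Q210.RWT

theorem hermite (M : ℕ) (hM : 0 < M) (k : ℕ) : ∑ s ∈ range M, (s + k) / M = k := by
  induction k with
  | zero =>
    refine sum_eq_zero fun s hs => ?_
    rw [add_zero, Nat.div_eq_of_lt (mem_range.1 hs)]
  | succ k ih =>
    have h1 := sum_range_succ' (fun s => (s + k) / M) M
    have h2 := sum_range_succ (fun s => (s + k) / M) M
    have h3 : (M + k) / M = k / M + 1 := by rw [Nat.add_div_left k hM]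
    have h4 : ∑ s ∈ range M, (s + (k + 1)) / M = ∑ s ∈ range M, (s + 1 + k) / M :=
      sum_congr rfl fun s _ => by rw [show s + (k + 1) = s + 1 + k by ring]
    simp only [zero_add] at h1
    rw [h4]
    omega

theorem main (hZ : TExZ) : Pool.Agent.Q210.RWT.TExS := by
  intro d k
  obtain ⟨hA, hB⟩ := hZ d
  cases k with
  | zero => simp [zpos]
  | succ k =>
    rw [show d ^ 2 + d + 1 = (d ^ 2 + 1) + d by ring, sum_range_add]
    have h1 : ∑ s ∈ range (d ^ 2 + 1), zpos (sh (ex d) s) (k + 1) =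
        (d ^ 2 + 1) * (k + 1) + d * k := by
      have e : ∀ s ∈ range (d ^ 2 + 1), zpos (sh (ex d) s) (k + 1) =
          (k + 1) + d * ((s + k) / (d ^ 2 + 1)) := fun s hs =>
        hA s k (Nat.lt_succ_iff.1 (mem_range.1 hs))
      rw [sum_congr rfl e, sum_add_distrib, ← mul_sum, hermite _ (Nat.succ_pos _)]
      simp
    have h2 : ∑ j ∈ range d, zpos (sh (ex d) (d ^ 2 + 1 + j)) (k + 1) ≤
        d * (k + 1 + d + d * k) := by
      have e : ∀ j ∈ range d, zpos (sh (ex d) (d ^ 2 + 1 + j)) (k + 1) ≤ k + 1 + d + d * k := by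
        intro j hj
        rw [hB j k (mem_range.1 hj)]
        have h3 : k / (d ^ 2 + 1) ≤ k := Nat.div_le_self _ _
        have h4 : d * (k / (d ^ 2 + 1)) ≤ d * k := Nat.mul_le_mul_left _ h3
        omega
      have := sum_le_card_nsmul _ _ _ e
      simpa using this
    rw [h1]
    calc (d ^ 2 + 1) * (k + 1) + d * k + ∑ j ∈ range d, zpos (sh (ex d) (d ^ 2 + 1 + j)) (k + 1)
        ≤ (d ^ 2 + 1) * (k + 1) + d * k + d * (k + 1 + d + d * k) := by omega
      _ ≤ (d ^ 2 + 1 + d) * (k + 1) + (d ^ 2 + d) * (k + 1) := by nlinarith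

end Pool.Agent.Q210.RWT.PTExS
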