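import Pool.Agent.Q210.RWT.Stmts

/-! # `TExZ` -/

namespace Pool.Agent.Q210.RWT.ExZ

open Finset
open Pool.Agent.Q210.RWT

theorem nth_of (p : ℕ → Prop) (g : ℕ → ℕ) (hg : StrictMono g) (h1 : ∀ k, p (g k))
    (h2 : ∀ x, p x → ∃ k, g k = x) (k : ℕ) : Nat.nth p k = g k := by
  have hinf : (setOf p).Infinite := Set.infinite_of_injective_forall_mem hg.injective h1
  have h3 := Nat.nth_comp_of_strictMono (n := k) hg (fun x hx => h2 x hx)
    (fun hfi => absurd hfi hinf)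
  rw [← h3, Nat.nth_of_forall (fun n' _ => h1 n')]

theorem ex_zero (d y : ℕ) : ex d y = 0 ↔ y % (d ^ 2 + d + 1) ≤ d ^ 2 := by
  have hlt : y % (d ^ 2 + d + 1) < d ^ 2 + d + 1 := Nat.mod_lt _ (by omega)
  unfold ex
  rw [Fin.ext_iff]
  change (y % (d ^ 2 + d + 1) - d ^ 2) % (d + 1) = 0 % (d + 1) ↔ _
  rw [Nat.zero_mod, Nat.mod_eq_of_lt (by omega)]
  omega

theorem ex_zero' (d q ρ : ℕ) (h : ρ ≤ d ^ 2) : ex d ((d ^ 2 + d + 1) * q + ρ) = 0 := by
  rw [ex_zero, Nat.mul_add_mod, Nat.mod_eq_of_lt (by omega)]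
  exact h

/-- decomposition of the zeros -/
theorem zero_dec (d y : ℕ) (h : ex d y = 0) :
    ∃ q ρ, ρ ≤ d ^ 2 ∧ y = (d ^ 2 + d + 1) * q + ρ := by
  rw [ex_zero] at h
  exact ⟨y / (d ^ 2 + d + 1), y % (d ^ 2 + d + 1), h, (Nat.div_add_mod _ _).symm⟩

theorem part1 (d s k : ℕ) (hs : s ≤ d ^ 2) :
    zpos (sh (ex d) s) (k + 1) = k + 1 + d * ((s + k) / (d ^ 2 + 1)) := by
  have h := nth_of (fun x => sh (ex d) s x = 0) (fun k => k + d * ((s + k) / (d ^ 2 + 1))) (by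
      refine strictMono_nat_of_lt_succ fun n => ?_
      have h1 : (s + n) / (d ^ 2 + 1) ≤ (s + (n + 1)) / (d ^ 2 + 1) :=
        Nat.div_le_div_right (by omega)
      have h2 := Nat.mul_le_mul_left d h1
      change n + d * ((s + n) / (d ^ 2 + 1)) < n + 1 + d * ((s + (n + 1)) / (d ^ 2 + 1))
      omega) (by
      intro k
      change ex d (k + d * ((s + k) / (d ^ 2 + 1)) + s) = 0
      have h1 := Nat.div_add_mod (s + k) (d ^ 2 + 1)
      have h2 : (s + k) % (d ^ 2 + 1) < d ^ 2 + 1 := Nat.mod_lt _ (by omega)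
      obtain ⟨q, hq⟩ : ∃ q, q = (s + k) / (d ^ 2 + 1) := ⟨_, rfl⟩
      obtain ⟨ρ, hρ⟩ : ∃ ρ, ρ = (s + k) % (d ^ 2 + 1) := ⟨_, rfl⟩
      rw [← hq, ← hρ] at h1
      rw [← hρ] at h2
      rw [← hq]
      have e : k + d * q + s = (d ^ 2 + d + 1) * q + ρ := by
        have : k + d * q + s = (s + k) + d * q := by ring
        rw [this, ← h1]
        ring
      rw [e]
      exact ex_zero' d q ρ (by omega)) (by
      intro x hx
      obtain ⟨q, ρ, hρ, hxq⟩ := zero_dec d (x + s) hx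
      have hle : s ≤ (d ^ 2 + 1) * q + ρ := by
        rcases Nat.eq_zero_or_pos q with rfl | hq
        · rw [Nat.mul_zero] at hxq ⊢
          omega
        · have : (d ^ 2 + 1) * 1 ≤ (d ^ 2 + 1) * q := Nat.mul_le_mul_left _ hq
          omega
      refine ⟨(d ^ 2 + 1) * q + ρ - s, ?_⟩
      have e1 : s + ((d ^ 2 + 1) * q + ρ - s) = (d ^ 2 + 1) * q + ρ := by omega
      have e2 : ((d ^ 2 + 1) * q + ρ) / (d ^ 2 + 1) = q := by
        rw [Nat.mul_add_div (by omega), Nat.div_eq_of_lt (by omega), Nat.add_zero]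
      change (d ^ 2 + 1) * q + ρ - s + d * ((s + ((d ^ 2 + 1) * q + ρ - s)) / (d ^ 2 + 1)) = x
      rw [e1, e2]
      have e3 : (d ^ 2 + d + 1) * q = (d ^ 2 + 1) * q + d * q := by ring
      rw [e3] at hxq
      omega) k
  change Nat.nth (fun x => sh (ex d) s x = 0) k + 1 = _
  rw [h]
  ring

theorem part2 (d j k : ℕ) (hj : j < d) :
    zpos (sh (ex d) (d ^ 2 + 1 + j)) (k + 1) = k + 1 + (d - j) + d * (k / (d ^ 2 + 1)) := by
  have h := nth_of (fun x => sh (ex d) (d ^ 2 + 1 + j) x = 0)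
    (fun k => k + (d - j) + d * (k / (d ^ 2 + 1))) (by
      refine strictMono_nat_of_lt_succ fun n => ?_
      have h1 : n / (d ^ 2 + 1) ≤ (n + 1) / (d ^ 2 + 1) := Nat.div_le_div_right (by omega)
      have h2 := Nat.mul_le_mul_left d h1
      change n + (d - j) + d * (n / (d ^ 2 + 1)) < n + 1 + (d - j) + d * ((n + 1) / (d ^ 2 + 1))
      omega) (by
      intro k
      change ex d (k + (d - j) + d * (k / (d ^ 2 + 1)) + (d ^ 2 + 1 + j)) = 0
      have h1 := Nat.div_add_mod k (d ^ 2 + 1)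
      have h2 : k % (d ^ 2 + 1) < d ^ 2 + 1 := Nat.mod_lt _ (by omega)
      obtain ⟨q, hq⟩ : ∃ q, q = k / (d ^ 2 + 1) := ⟨_, rfl⟩
      obtain ⟨ρ, hρ⟩ : ∃ ρ, ρ = k % (d ^ 2 + 1) := ⟨_, rfl⟩
      rw [← hq, ← hρ] at h1
      rw [← hρ] at h2
      rw [← hq]
      have e : k + (d - j) + d * q + (d ^ 2 + 1 + j) = (d ^ 2 + d + 1) * (q + 1) + ρ := by
        have e1 : k + (d - j) + d * q + (d ^ 2 + 1 + j) = k + d * q + (d ^ 2 + d + 1) := by omega
        rw [e1, ← h1]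
        ring
      rw [e]
      exact ex_zero' d (q + 1) ρ (by omega)) (by
      intro x hx
      obtain ⟨q, ρ, hρ, hxq⟩ := zero_dec d (x + (d ^ 2 + 1 + j)) hx
      rcases Nat.eq_zero_or_pos q with rfl | hq
      · rw [Nat.mul_zero] at hxq
        omega
      · obtain ⟨q', rfl⟩ : ∃ q', q = q' + 1 := ⟨q - 1, by omega⟩
        refine ⟨(d ^ 2 + 1) * q' + ρ, ?_⟩
        have e2 : ((d ^ 2 + 1) * q' + ρ) / (d ^ 2 + 1) = q' := by
          rw [Nat.mul_add_div (by omega), Nat.div_eq_of_lt (by omega), Nat.add_zero]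
        change (d ^ 2 + 1) * q' + ρ + (d - j) + d * (((d ^ 2 + 1) * q' + ρ) / (d ^ 2 + 1)) = x
        rw [e2]
        have e3 : (d ^ 2 + d + 1) * (q' + 1) = (d ^ 2 + 1) * q' + d * q' + (d ^ 2 + d + 1) := by ring
        rw [e3] at hxq
        omega) k
  change Nat.nth (fun x => sh (ex d) (d ^ 2 + 1 + j) x = 0) k + 1 = _
  rw [h]
  ring

end Pool.Agent.Q210.RWT.ExZ

namespace Pool.Agent.Q210.RWT.PTExZ

theorem main : Pool.Agent.Q210.RWT.TExZ := fun d =>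
  ⟨fun s k hs => ExZ.part1 d s k hs, fun j k hj => ExZ.part2 d j k hj⟩

end Pool.Agent.Q210.RWT.PTExZ
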