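import Pool.Agent.Q210.RWT.Stmts

namespace Pool.Agent.Q210.RWT.PTExist

open MeasureTheory ProbabilityTheory Finset Pool.Agent.Q210.RWT

theorem main : Pool.Agent.Q210.RWT.TExist := by
  intro d L hL
  haveI : Nonempty (Fin L) := ⟨⟨0, hL⟩⟩
  let μ : V d → Measure (Fin L) := fun _ => (PMF.uniformOfFintype (Fin L)).toMeasure
  haveI hμ : ∀ v, IsProbabilityMeasure (μ v) := fun v => by
    dsimp only [μ]; infer_instance
  refine ⟨V d → Fin L, inferInstance, Measure.infinitePi μ, inferInstance,
    fun v ω => (ω v : ℕ), ?_, ?_, ?_⟩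
  · intro v
    exact (measurable_of_countable (fun i : Fin L => (i : ℕ))).comp (measurable_pi_apply v)
  · exact iIndepFun_infinitePi (P := μ) (X := fun _ (i : Fin L) => (i : ℕ))
      (fun v => measurable_of_countable _)
  · intro v s hs
    have hmap := measurePreserving_eval_infinitePi μ v
    have hset : {ω : V d → Fin L | ((ω v : Fin L) : ℕ) = s} =
        (Function.eval v) ⁻¹' ({⟨s, hs⟩} : Set (Fin L)) := by
      ext ω
      simp [Fin.ext_iff]
    rw [hset, hmap.measure_preimage (measurableSet_singleton _).nullMeasurableSet]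
    dsimp only [μ]
    rw [PMF.toMeasure_apply_singleton _ _ (measurableSet_singleton _)]
    simp

end Pool.Agent.Q210.RWT.PTExist
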