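import Pool.Agent.Q210.RWT.Stmts

namespace Pool.Agent.Q210.RWT.PTExp

open Pool.Agent.Q210.RWT
open MeasureTheory ProbabilityTheory Finset

private lemma zinf_sh {d : ℕ} {a : ℕ → Fin (d + 1)} (ha : Zinf a) (s : ℕ) : Zinf (sh a s) := by
  intro N
  obtain ⟨x, hx, hx0⟩ := ha (N + s)
  refine ⟨x - s, by omega, ?_⟩
  unfold sh
  rw [Nat.sub_add_cancel (by omega)]
  exact hx0

private lemma unif_lint {Ω : Type} [MeasurableSpace Ω] (P : Measure Ω) [IsProbabilityMeasure P]
    (L : ℕ) (hL : 1 ≤ L) (U : Ω → ℕ) (hU : Measurable U)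
    (hu : ∀ s < L, P {ω | U ω = s} = (L : ENNReal)⁻¹) (g : ℕ → ENNReal) :
    (L : ENNReal) * ∫⁻ s, g s ∂(P.map U) = ∑ s ∈ range L, g s := by
  have hs : ∀ s < L, (P.map U) {s} = (L : ENNReal)⁻¹ := by
    intro s hs
    rw [Measure.map_apply hU (measurableSet_singleton s)]
    exact hu s hs
  have hprob : IsProbabilityMeasure (P.map U) := Measure.isProbabilityMeasure_map hU.aemeasurable
  have hL0 : (L : ENNReal) ≠ 0 := by exact_mod_cast (by omega : L ≠ 0)
  have hLt : (L : ENNReal) ≠ ⊤ := ENNReal.natCast_ne_top L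
  have htot : (P.map U) (↑(range L) : Set ℕ) = 1 := by
    have : (P.map U) (↑(range L) : Set ℕ) = ∑ s ∈ range L, (P.map U) {s} := by
      rw [MeasureTheory.sum_measure_singleton]
    rw [this, Finset.sum_congr rfl (fun s hs' => hs s (Finset.mem_range.mp hs')),
      Finset.sum_const, Finset.card_range, nsmul_eq_mul, ENNReal.mul_inv_cancel hL0 hLt]
  have hcompl : (P.map U) ((↑(range L) : Set ℕ)ᶜ) = 0 := by
    rw [prob_compl_eq_zero_iff (Finset.measurableSet _)]
    exact htot
  have h1 : ∫⁻ s, g s ∂(P.map U) = ∑ s ∈ range L, g s * (L : ENNReal)⁻¹ := by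
    rw [← lintegral_add_compl (μ := P.map U) g (Finset.measurableSet (range L)),
      setLIntegral_measure_zero _ _ hcompl, add_zero, lintegral_finset]
    exact Finset.sum_congr rfl fun s hs' => by rw [hs s (Finset.mem_range.mp hs')]
  rw [h1, ← Finset.sum_mul, mul_comm, mul_assoc, ENNReal.inv_mul_cancel hL0 hLt, mul_one]

theorem main (hInd : TInd) (hTot : TTot) (hMeas : TMeas) : Pool.Agent.Q210.RWT.TExp := by
  intro Ω _ P _ d L K hK a ha hL q hq
  have hL0 : (L : ENNReal) ≠ 0 := by exact_mod_cast (by omega : L ≠ 0)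
  have hLt : (L : ENNReal) ≠ ⊤ := ENNReal.natCast_ne_top L
  -- one vertex
  have one : ∀ (n m : ℕ) (w : Fin m → Fin d),
      (L : ENNReal) * ∫⁻ ω, (zpos (sh a (K (List.ofFn w) ω))
        (flow (cfg a K ω) n (List.ofFn w)) : ENNReal) ∂P ≤
      ((L : ENNReal) + q) * ∫⁻ ω, (flow (cfg a K ω) n (List.ofFn w) : ENNReal) ∂P := by
    intro n m w
    have hF : Measurable (fun ω => flow (cfg a K ω) n (List.ofFn w)) :=
      hMeas Ω P d L K hK a n (List.ofFn w)
    have hU : Measurable (K (List.ofFn w)) := hK.meas _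
    have hind : IndepFun (fun ω => flow (cfg a K ω) n (List.ofFn w)) (K (List.ofFn w)) P :=
      (hInd Ω P d L K hK a n m).comp (measurable_pi_apply w) (measurable_pi_apply w)
    have hprod := (indepFun_iff_map_prod_eq_prod_map_map hF.aemeasurable hU.aemeasurable).mp hind
    have hG : Measurable (fun z : ℕ × ℕ => (zpos (sh a z.2) z.1 : ENNReal)) :=
      measurable_of_countable _
    have hprobU : IsProbabilityMeasure (P.map (K (List.ofFn w))) :=
      Measure.isProbabilityMeasure_map hU.aemeasurable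
    have h1 : ∫⁻ ω, (zpos (sh a (K (List.ofFn w) ω))
        (flow (cfg a K ω) n (List.ofFn w)) : ENNReal) ∂P =
        ∫⁻ k, ∫⁻ s, (zpos (sh a s) k : ENNReal) ∂(P.map (K (List.ofFn w)))
          ∂(P.map (fun ω => flow (cfg a K ω) n (List.ofFn w))) := by
      have h2 : ∫⁻ z, (zpos (sh a z.2) z.1 : ENNReal)
          ∂(P.map (fun ω => (flow (cfg a K ω) n (List.ofFn w), K (List.ofFn w) ω))) =
          ∫⁻ ω, (zpos (sh a (K (List.ofFn w) ω))
            (flow (cfg a K ω) n (List.ofFn w)) : ENNReal) ∂P :=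
        lintegral_map hG (hF.prodMk hU)
      rw [← h2, hprod, lintegral_prod _ hG.aemeasurable]
    rw [h1, ← lintegral_const_mul _ (measurable_of_countable _)]
    have h3 : ∫⁻ ω, (flow (cfg a K ω) n (List.ofFn w) : ENNReal) ∂P =
        ∫⁻ k, (k : ENNReal) ∂(P.map (fun ω => flow (cfg a K ω) n (List.ofFn w))) :=
      (lintegral_map (f := fun k : ℕ => (k : ENNReal)) (measurable_of_countable _) hF).symm
    rw [h3, ← lintegral_const_mul _ (measurable_of_countable _)]
    refine lintegral_mono fun k => ?_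
    rw [unif_lint P L hL _ hU (hK.unif _) (fun s => (zpos (sh a s) k : ENNReal))]
    have h4 := hq k
    have h5 : ((∑ s ∈ range L, zpos (sh a s) k : ℕ) : ENNReal) ≤ ((L * k + q * k : ℕ) : ENNReal) := by
      exact_mod_cast h4
    push_cast at h5
    calc ∑ s ∈ range L, (zpos (sh a s) k : ENNReal) ≤ (L : ENNReal) * k + q * k := h5
      _ = ((L : ENNReal) + q) * k := by ring
  -- sum over a generation
  have step : ∀ n m : ℕ,
      (L : ENNReal) * ∫⁻ ω, (tot (cfg a K ω) n (m + 1) : ENNReal) ∂P +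
        (L : ENNReal) * ∫⁻ ω, (tot (cfg a K ω) n m : ENNReal) ∂P ≤
      ((L : ENNReal) + q) * ∫⁻ ω, (tot (cfg a K ω) n m : ENNReal) ∂P := by
    intro n m
    have hmt : ∀ m, Measurable (fun ω => (tot (cfg a K ω) n m : ENNReal)) := by
      intro m
      have : Measurable (fun ω => tot (cfg a K ω) n m) := by
        unfold tot
        exact Finset.measurable_sum _ (fun w _ => hMeas Ω P d L K hK a n (List.ofFn w))
      exact (measurable_of_countable (fun k : ℕ => (k : ENNReal))).comp this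
    have hmz : ∀ w : Fin m → Fin d, Measurable (fun ω => (zpos (sh a (K (List.ofFn w) ω))
        (flow (cfg a K ω) n (List.ofFn w)) : ENNReal)) := by
      intro w
      have hG : Measurable (fun z : ℕ × ℕ => (zpos (sh a z.2) z.1 : ENNReal)) :=
        measurable_of_countable _
      exact hG.comp ((hMeas Ω P d L K hK a n (List.ofFn w)).prodMk (hK.meas (List.ofFn w)))
    have hmf : ∀ w : Fin m → Fin d, Measurable (fun ω =>
        (flow (cfg a K ω) n (List.ofFn w) : ENNReal)) := fun w =>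
      (measurable_of_countable (fun k : ℕ => (k : ENNReal))).comp
        (hMeas Ω P d L K hK a n (List.ofFn w))
    rw [← mul_add, ← lintegral_add_left (hmt (m + 1))]
    have e1 : ∀ ω, (tot (cfg a K ω) n (m + 1) : ENNReal) + (tot (cfg a K ω) n m : ENNReal) =
        ∑ w : Fin m → Fin d, (zpos (sh a (K (List.ofFn w) ω))
          (flow (cfg a K ω) n (List.ofFn w)) : ENNReal) := by
      intro ω
      have := hTot d (cfg a K ω) (fun v => zinf_sh ha _) n m
      have h2 : ((tot (cfg a K ω) n (m + 1) + tot (cfg a K ω) n m : ℕ) : ENNReal) =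
        ((∑ w : Fin m → Fin d, zpos (cfg a K ω (List.ofFn w))
          (flow (cfg a K ω) n (List.ofFn w)) : ℕ) : ENNReal) := by rw [this]
      push_cast at h2
      exact h2
    have e2 : ∀ ω, (tot (cfg a K ω) n m : ENNReal) =
        ∑ w : Fin m → Fin d, (flow (cfg a K ω) n (List.ofFn w) : ENNReal) := by
      intro ω
      unfold tot
      push_cast
      rfl
    rw [lintegral_congr e1, lintegral_congr e2, lintegral_finset_sum _ (fun w _ => hmz w),
      lintegral_finset_sum _ (fun w _ => hmf w), Finset.mul_sum, Finset.mul_sum]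
    exact Finset.sum_le_sum fun w _ => one n m w
  -- finiteness
  have fin : ∀ n m : ℕ, ∫⁻ ω, (tot (cfg a K ω) n m : ENNReal) ∂P ≠ ⊤ := by
    intro n m
    induction m with
    | zero =>
      have : ∀ ω, (tot (cfg a K ω) n 0 : ENNReal) = n := by
        intro ω
        simp [tot, flow]
      rw [lintegral_congr this, lintegral_const, measure_univ, mul_one]
      exact ENNReal.natCast_ne_top n
    | succ m ih =>
      have h1 : (L : ENNReal) * ∫⁻ ω, (tot (cfg a K ω) n (m + 1) : ENNReal) ∂P ≤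
          ((L : ENNReal) + q) * ∫⁻ ω, (tot (cfg a K ω) n m : ENNReal) ∂P :=
        le_trans le_self_add (step n m)
      have h2 : ((L : ENNReal) + q) * ∫⁻ ω, (tot (cfg a K ω) n m : ENNReal) ∂P ≠ ⊤ :=
        ENNReal.mul_ne_top (ENNReal.add_ne_top.mpr ⟨hLt, ENNReal.natCast_ne_top q⟩) ih
      have h3 : (L : ENNReal) * ∫⁻ ω, (tot (cfg a K ω) n (m + 1) : ENNReal) ∂P ≠ ⊤ :=
        ne_top_of_le_ne_top h2 h1
      intro h4
      rw [h4, ENNReal.mul_top hL0] at h3
      exact h3 rfl
  intro n m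
  have h := step n m
  have hfin : (L : ENNReal) * ∫⁻ ω, (tot (cfg a K ω) n m : ENNReal) ∂P ≠ ⊤ :=
    ENNReal.mul_ne_top hLt (fin n m)
  have h' : (L : ENNReal) * ∫⁻ ω, (tot (cfg a K ω) n (m + 1) : ENNReal) ∂P +
        (L : ENNReal) * ∫⁻ ω, (tot (cfg a K ω) n m : ENNReal) ∂P ≤
      q * ∫⁻ ω, (tot (cfg a K ω) n m : ENNReal) ∂P +
        (L : ENNReal) * ∫⁻ ω, (tot (cfg a K ω) n m : ENNReal) ∂P := by
    refine le_trans h (le_of_eq ?_)
    ring
  exact (ENNReal.add_le_add_iff_right hfin).mp h'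

end Pool.Agent.Q210.RWT.PTExp
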