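import Pool.Agent.Q210.RWT.Stmts

set_option autoImplicit false

namespace Pool.Agent.Q210.RWT.PTGrow

open Pool.Agent.Q210.RWT
open MeasureTheory ProbabilityTheory Finset

theorem main : Pool.Agent.Q210.RWT.TGrow := by
  intro Ω _ P _ X n C ρ hn hC hρ hX0 hstep
  have hρ0 : 0 < ρ := by linarith
  let E : ℕ → Set Ω := fun m => {ω | n * ρ ^ m ≤ X m ω ∧ X (m + 1) ω < ρ * X m ω}
  have hE : ∀ m, P (E m) ≤ ENNReal.ofReal (C / (n * ρ ^ m)) := fun m =>
    hstep m (n * ρ ^ m) (by positivity)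
  have hsub : {ω | ∃ m, X m ω = 0} ⊆ ⋃ m, E m := by
    intro ω hω
    by_contra hcon
    have hnot : ∀ m, ω ∉ E m := fun m hm => hcon (Set.mem_iUnion.2 ⟨m, hm⟩)
    have hind : ∀ m, n * ρ ^ m ≤ X m ω := by
      intro m
      induction m with
      | zero => simp [hX0 ω]
      | succ m ih =>
        have h1 : ¬ (X (m + 1) ω < ρ * X m ω) := fun h => hnot m ⟨ih, h⟩
        have h2 : ρ * (n * ρ ^ m) ≤ ρ * X m ω := mul_le_mul_of_nonneg_left ih hρ0.le
        have h3 : n * ρ ^ (m + 1) = ρ * (n * ρ ^ m) := by ring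
        rw [h3]
        exact h2.trans (not_lt.1 h1)
    obtain ⟨m, hm⟩ := hω
    have h4 := hind m
    rw [hm] at h4
    have h5 : 0 < n * ρ ^ m := by positivity
    linarith
  have hs : Summable (fun m : ℕ => C / (n * ρ ^ m)) := by
    have h1 : (fun m : ℕ => C / (n * ρ ^ m)) = fun m : ℕ => C / n * (ρ⁻¹) ^ m := by
      funext m
      rw [inv_pow]
      field_simp
    rw [h1]
    exact (summable_geometric_of_lt_one (by positivity) (inv_lt_one_of_one_lt₀ hρ)).mul_left _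
  have hsum : ∑' m : ℕ, C / (n * ρ ^ m) = C * ρ / (ρ - 1) / n := by
    have h1 : (fun m : ℕ => C / (n * ρ ^ m)) = fun m : ℕ => C / n * (ρ⁻¹) ^ m := by
      funext m
      rw [inv_pow]
      field_simp
    rw [h1, tsum_mul_left, tsum_geometric_of_lt_one (by positivity) (inv_lt_one_of_one_lt₀ hρ)]
    have h2 : ρ - 1 ≠ 0 := by linarith
    have h3 : 1 - ρ⁻¹ ≠ 0 := by
      have := inv_lt_one_of_one_lt₀ hρ
      linarith
    field_simp
  calc P {ω | ∃ m, X m ω = 0} ≤ P (⋃ m, E m) := measure_mono hsub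
    _ ≤ ∑' m, P (E m) := measure_iUnion_le _
    _ ≤ ∑' m, ENNReal.ofReal (C / (n * ρ ^ m)) := ENNReal.tsum_le_tsum hE
    _ = ENNReal.ofReal (∑' m, C / (n * ρ ^ m)) :=
        (ENNReal.ofReal_tsum_of_nonneg (fun m => by positivity) hs).symm
    _ = ENNReal.ofReal (C * ρ / (ρ - 1) / n) := by rw [hsum]

end Pool.Agent.Q210.RWT.PTGrow
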