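import Mathlib
import Pool.Agent.Q210.RWT.Stmts

namespace Pool.Agent.Q210.RWT.PTInd

open MeasureTheory ProbabilityTheory Finset
open Pool.Agent.Q210.RWT

theorem flow_congr {d : ℕ} (A A' : V d → ℕ → Fin (d + 1)) (n : ℕ) : ∀ v : V d,
    (∀ u : V d, u.length < v.length → A u = A' u) → flow A n v = flow A' n v := by
  intro v
  induction v with
  | nil => intro _; rfl
  | cons i v ih =>
    intro h
    have h1 : A v = A' v := h v (by simp)
    have h2 : flow A n v = flow A' n v := ih (fun u hu => h u (by
      rw [List.length_cons]; omega))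
    show uc (A v) i (zpos (A v) (flow A n v)) = uc (A' v) i (zpos (A' v) (flow A' n v))
    rw [h1, h2]

theorem main : Pool.Agent.Q210.RWT.TInd := by
  classical
  intro Ω _ P _ d L K hK a n m
  have hS : {v : V d | v.length < m}.Finite := List.finite_length_lt (Fin d) m
  have hT : {v : V d | v.length = m}.Finite := List.finite_length_eq (Fin d) m
  have hdis : Disjoint hS.toFinset hT.toFinset := by
    rw [Finset.disjoint_left]
    intro v hv hv'
    rw [Set.Finite.mem_toFinset] at hv hv'
    have h1 : v.length < m := hv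
    have h2 : v.length = m := hv'
    omega
  have hind := hK.ind.indepFun_finset hS.toFinset hT.toFinset hdis hK.meas
  let φ : ((i : hS.toFinset) → ℕ) → (Fin m → Fin d) → ℕ := fun x w =>
    flow (fun v => sh a (if h : v ∈ hS.toFinset then x ⟨v, h⟩ else 0)) n (List.ofFn w)
  have hw : ∀ w : Fin m → Fin d, List.ofFn w ∈ hT.toFinset := by
    intro w
    rw [Set.Finite.mem_toFinset]
    show (List.ofFn w).length = m
    simp
  let ψ : ((i : hT.toFinset) → ℕ) → (Fin m → Fin d) → ℕ := fun x w => x ⟨List.ofFn w, hw w⟩
  have hφ : Measurable φ := Measurable.of_discrete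
  have hψ : Measurable ψ := Measurable.of_discrete
  have h := hind.comp hφ hψ
  have e1 : (fun ω (w : Fin m → Fin d) => flow (cfg a K ω) n (List.ofFn w)) =
      φ ∘ (fun ω (i : hS.toFinset) => K i ω) := by
    funext ω w
    show flow (cfg a K ω) n (List.ofFn w) =
      flow (fun v => sh a (if h : v ∈ hS.toFinset then K v ω else 0)) n (List.ofFn w)
    refine flow_congr _ _ n _ (fun u hu => ?_)
    have hu' : u ∈ hS.toFinset := by
      rw [Set.Finite.mem_toFinset]
      show u.length < m
      simpa using hu
    show sh a (K u ω) = sh a (if h : u ∈ hS.toFinset then K u ω else 0)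
    rw [dif_pos hu']
  have e2 : (fun ω (w : Fin m → Fin d) => K (List.ofFn w) ω) =
      ψ ∘ (fun ω (i : hT.toFinset) => K i ω) := by
    funext ω w
    rfl
  rw [e1, e2]
  exact h

end Pool.Agent.Q210.RWT.PTInd
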