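import Pool.Agent.Q210.RWT.Stmts

namespace Pool.Agent.Q210.RWT.PTLast
open Pool.Agent.Q210.RWT Finset

theorem zc_succ {d : ℕ} (b : ℕ → Fin (d + 1)) (n : ℕ) (h : b n = 0) :
    zpos b (zc b (n + 1)) = n + 1 := by
  have h1 : ∀ m, zc b m = Nat.count (fun x => b x = 0) m := by
    intro m
    rw [Nat.count_eq_card_filter_range]
    rfl
  have h2 : zc b (n + 1) = zc b n + 1 := by
    rw [h1, h1, Nat.count_succ, if_pos h]
  rw [h2]
  show Nat.nth (fun x => b x = 0) (zc b n) + 1 = n + 1
  rw [h1, Nat.nth_count h]

theorem step {d : ℕ} (b : V d → ℕ → Fin (d + 1)) (p : V d) (c : V d → ℕ) (w : V d)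
    (ih : ¬ (w <:+ p) → c w = zpos (b w) (zc (b w) (c w)))
    (hw : ¬ (w <:+ nb p (b p (c p)))) :
    Function.update c p (c p + 1) w =
      zpos (b w) (zc (b w) (Function.update c p (c p + 1) w)) := by
  by_cases hwp : w = p
  · subst hwp
    rw [Function.update_self]
    have h0 : b w (c w) = 0 := by
      by_contra hne
      obtain ⟨i, hi⟩ := Fin.exists_succ_eq.2 hne
      apply hw
      rw [← hi]
      show w <:+ i :: w
      exact List.suffix_cons i w
    rw [zc_succ _ _ h0]
  · rw [Function.update_of_ne hwp]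
    apply ih
    intro hs
    apply hw
    rcases Fin.eq_zero_or_eq_succ (b p (c p)) with h | ⟨i, h⟩
    · rw [h]
      show w <:+ p.tail
      cases p with
      | nil => exact absurd (List.suffix_nil.1 hs) hwp
      | cons x q =>
        rcases List.suffix_cons_iff.1 hs with h1 | h1
        · exact absurd h1 hwp
        · exact h1
    · rw [h]
      show w <:+ i :: p
      exact hs.trans (List.suffix_cons i p)

theorem main : TLast := by
  intro d A _ t
  induction t with
  | zero =>
    intro w _
    show (0 : ℕ) = zpos (A w) (zc (A w) 0)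
    simp [zc, zpos]
  | succ t ih =>
    intro w hw
    exact step A (walk A t).1 (walk A t).2 w (ih w) hw

end Pool.Agent.Q210.RWT.PTLast
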