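import Pool.Agent.Q210.RWT.Stmts

set_option autoImplicit false

namespace Pool.Agent.Q210.RWT.PTLen

open Pool.Agent.Q210.RWT

private theorem nb_len {d : ℕ} (v : V d) (r : Fin (d + 1)) : (nb v r).length ≤ v.length + 1 := by
  unfold nb
  refine Fin.cases ?_ (fun i => ?_) r
  · simp only [Fin.cases_zero, List.length_tail]
    omega
  · simp only [Fin.cases_succ, List.length_cons]
    omega

private theorem pos_len {d : ℕ} (A : V d → ℕ → Fin (d + 1)) (t : ℕ) :
    (walk A t).1.length ≤ t := by
  induction t with
  | zero => simp [walk]
  | succ t ih =>
    have h := nb_len (walk A t).1 (A (walk A t).1 ((walk A t).2 (walk A t).1))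
    have e : (walk A (t + 1)).1 = nb (walk A t).1 (A (walk A t).1 ((walk A t).2 (walk A t).1)) := rfl
    rw [e]
    omega

theorem main : Pool.Agent.Q210.RWT.TLen := by
  intro d A t w
  induction t with
  | zero => intro h; exact absurd rfl h
  | succ t ih =>
    intro h
    by_cases hw : w = (walk A t).1
    · have := pos_len A t
      rw [hw]
      omega
    · have e : (walk A (t + 1)).2 w = (walk A t).2 w := by
        change Function.update (walk A t).2 (walk A t).1 _ w = _
        exact Function.update_of_ne hw _ _
      rw [e] at h
      have := ih h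
      omega

end Pool.Agent.Q210.RWT.PTLen
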