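import Pool.Agent.Q210.RWT.Stmts

set_option autoImplicit false

namespace Pool.Agent.Q210.RWT.PTLow

open Finset Pool.Agent.Q210.RWT

theorem sum_shift (L : ℕ) (g : ℕ → ℕ) (hg : ∀ x, g (x + L) = g x) (s0 : ℕ) :
    ∑ s ∈ range L, g (s + s0) = ∑ s ∈ range L, g s := by
  induction s0 with
  | zero => rfl
  | succ n ih =>
    rw [← ih]
    have h1 := Finset.sum_range_succ (fun s => g (s + n)) L
    have h2 := Finset.sum_range_succ' (fun s => g (s + n)) L
    have h3 : g (L + n) = g (0 + n) := by rw [zero_add, add_comm]; exact hg n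
    have h4 : ∀ s, g (s + (n + 1)) = g (s + 1 + n) := fun s => by congr 1; ring
    rw [Finset.sum_congr rfl fun s _ => h4 s]
    rw [h2] at h1
    rw [h3] at h1
    exact Nat.add_right_cancel h1

variable {d : ℕ}

theorem zc_sum (b : ℕ → Fin (d + 1)) (c : ℕ) : zc b c = ∑ x ∈ range c, if b x = 0 then 1 else 0 := by
  rw [zc, Finset.card_filter]

theorem zc_succ (b : ℕ → Fin (d + 1)) (c : ℕ) : zc b (c + 1) = zc b c + if b c = 0 then 1 else 0 := by
  rw [zc_sum, zc_sum, Finset.sum_range_succ]

theorem zc_mono (b : ℕ → Fin (d + 1)) {c c' : ℕ} (h : c ≤ c') : zc b c ≤ zc b c' := by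
  apply Finset.card_le_card
  apply Finset.filter_subset_filter
  exact Finset.range_mono h

theorem per_mul {L : ℕ} {b : ℕ → Fin (d + 1)} (h : Per L b) (k x : ℕ) : b (x + L * k) = b x := by
  induction k with
  | zero => simp
  | succ k ih => rw [Nat.mul_succ, ← Nat.add_assoc, h, ih]

theorem zc_mul {L : ℕ} {b : ℕ → Fin (d + 1)} (h : Per L b) (k : ℕ) : zc b (L * k) = k * zc b L := by
  induction k with
  | zero => simp [zc]
  | succ k ih =>
    have e : zc b (L * k + L) = zc b (L * k) + zc b L := by
      rw [zc_sum, zc_sum, zc_sum, Finset.sum_range_add]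
      congr 1
      apply Finset.sum_congr rfl
      intro x _
      rw [Nat.add_comm (L * k) x, per_mul h]
    rw [Nat.mul_succ, e, ih]
    ring

theorem main (hCls : TCls) (hRep : TRep) (hCS : TCS) : Pool.Agent.Q210.RWT.TLow := by
  intro d L a hP hZ hL h4 k hk
  obtain ⟨x0, hx0, hax0⟩ := hZ L
  set s0 := x0 - (L - 1) with hs0
  set b := sh a s0 with hb
  have hbL : b (L - 1) = 0 := by
    show a (L - 1 + s0) = 0
    have : L - 1 + s0 = x0 := by omega
    rw [this]
    exact hax0
  have hPb : Per L b := by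
    intro x
    show a (x + L + s0) = a (x + s0)
    have : x + L + s0 = x + s0 + L := by ring
    rw [this]
    exact hP _
  have hZb : Zinf b := by
    intro N
    obtain ⟨x, hx, hx0⟩ := hZ (N + s0)
    refine ⟨x - s0, by omega, ?_⟩
    show a (x - s0 + s0) = 0
    rw [Nat.sub_add_cancel (by omega)]
    exact hx0
  have hzb : zc b L = zc a L := by
    rw [zc_sum, zc_sum]
    exact sum_shift L (fun x => if a x = 0 then 1 else 0) (fun x => by simp only [hP x]) s0
  have hS : ∑ s ∈ range L, zpos (sh b s) k = ∑ s ∈ range L, zpos (sh a s) k := by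
    have := sum_shift L (fun s => zpos (sh a s) k) (fun x => by
      have : sh a (x + L) = sh a x := by
        funext y
        show a (y + (x + L)) = a (y + x)
        rw [← Nat.add_assoc]
        exact hP _
      simp only [this]) s0
    rw [← this]
    apply Finset.sum_congr rfl
    intro s _
    have : sh b s = sh a (s + s0) := by
      funext y
      show a (y + s + s0) = a (y + (s + s0))
      rw [Nat.add_assoc]
    rw [this]
  have hz1 : 1 ≤ zc b L := by
    have : zc b (L - 1 + 1) = zc b (L - 1) + 1 := by rw [zc_succ, if_pos hbL]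
    rw [Nat.sub_add_cancel hL] at this
    omega
  have hlt : ∀ x < L * k, zc b x / k < zc b L := by
    intro x hx
    apply Nat.div_lt_of_lt_mul
    have e1 : L * k = (L * k - 1) + 1 := by
      have : 1 ≤ L * k := Nat.mul_pos hL hk
      omega
    have e2 : b (L * k - 1) = 0 := by
      obtain ⟨k', rfl⟩ : ∃ k', k = k' + 1 := ⟨k - 1, by omega⟩
      have : L * (k' + 1) - 1 = (L - 1) + L * k' := by
        rw [Nat.mul_succ]
        omega
      rw [this, per_mul hPb, hbL]
    have e3 : zc b (L * k) = zc b (L * k - 1) + 1 := by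
      conv_lhs => rw [e1]
      rw [zc_succ, if_pos e2]
    have e4 := zc_mono b (show x ≤ L * k - 1 by omega)
    have e5 := zc_mul hPb k
    omega
  have h1 := hCS (L * k) (zc b L) (fun x => zc b x / k) hlt
  have h2 : ∑ s ∈ range (L * k), ((Ico s (L * k)).filter (fun x => zc b x / k = zc b s / k)).card ≤
      k * ∑ s ∈ range L, zpos (sh b s) k := by
    rw [← hRep d L b hPb k]
    exact Finset.sum_le_sum fun s _ => hCls d L b hPb hZb (L * k) s k hk
  rw [hS] at h2
  set S := ∑ s ∈ range L, zpos (sh a s) k with hSdef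
  rw [← hzb] at h4
  set z := zc b L with hz
  have h3 : (L * k) ^ 2 + z * (L * k) ≤ 2 * z * (k * S) := h1.trans (Nat.mul_le_mul_left _ h2)
  have h5 : z * k * ((4 * k + 1) * L) ≤ z * k * (2 * S) := by
    have h6 : 4 * z * (L * k ^ 2) ≤ L * (L * k ^ 2) := Nat.mul_le_mul_right _ h4
    nlinarith [h3, h6]
  exact Nat.le_of_mul_le_mul_left h5 (Nat.mul_pos hz1 hk)

end Pool.Agent.Q210.RWT.PTLow
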