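import Pool.Agent.Q210.RWT.Stmts

set_option autoImplicit false

open MeasureTheory ProbabilityTheory Finset

namespace Pool.Agent.Q210.RWT.PTMean

theorem main (hLow : Pool.Agent.Q210.RWT.TLow) (hPer : Pool.Agent.Q210.RWT.TPer) :
    Pool.Agent.Q210.RWT.TMean := by
  intro d L a hp hz hL h4 k
  obtain ⟨S, hS⟩ : ∃ S : ℕ → ℕ, S = fun k => ∑ s ∈ range L, zpos (sh a s) k := ⟨_, rfl⟩
  have hz1 : 1 ≤ zc a L := by
    by_contra h
    have h0 : zc a L = 0 := by omega
    have h1 := hPer d L a hp hz 0 0
    rw [h0, add_zero] at h1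
    omega
  have hstep : ∀ j, S (j + zc a L) = S j + L * L := by
    intro j
    rw [hS]
    simp only
    rw [Finset.sum_congr rfl (fun s _ => hPer d L a hp hz s j), Finset.sum_add_distrib,
      Finset.sum_const, card_range, smul_eq_mul]
  have hlow1 : ∀ j, 1 ≤ j → (4 * j + 1) * L ≤ 2 * S j := by
    intro j hj
    rw [hS]
    exact hLow d L a hp hz hL h4 j hj
  change (2 * zc a L + 1) * (k * L) + 2 * zc a L * (k * L) ≤
    2 * zc a L * ∑ s ∈ range L, zpos (sh a s) k
  have hSk : ∑ s ∈ range L, zpos (sh a s) k = S k := by rw [hS]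
  rw [hSk]
  clear hSk hS
  generalize zc a L = z at *
  have hq : ∀ q r, S (r + q * z) = S r + q * (L * L) := by
    intro q r
    induction q with
    | zero => simp
    | succ q ih =>
      have e : r + (q + 1) * z = (r + q * z) + z := by ring
      rw [e, hstep, ih]
      ring
  have hlow : ∀ j, 4 * j * L ≤ 2 * S j := by
    intro j
    rcases Nat.eq_zero_or_pos j with h | h
    · subst h
      simp
    · have h1 := hlow1 j h
      have h2 : (4 * j + 1) * L = 4 * j * L + L := by ring
      omega
  obtain ⟨q, r, hr, hk⟩ : ∃ q r, r < z ∧ k = r + q * z :=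
    ⟨k / z, k % z, Nat.mod_lt _ hz1, by rw [mul_comm]; exact (Nat.mod_add_div k z).symm⟩
  subst hk
  rw [hq]
  rcases Nat.eq_zero_or_pos q with h | h
  · subst h
    simp only [zero_mul, add_zero]
    rcases Nat.eq_zero_or_pos r with h0 | h0
    · subst h0
      simp
    · have h1 := Nat.mul_le_mul_left z (hlow1 r h0)
      have h2 : r * L ≤ z * L := Nat.mul_le_mul_right L hr.le
      calc (2 * z + 1) * (r * L) + 2 * z * (r * L) = 4 * (z * r * L) + r * L := by ring
        _ ≤ 4 * (z * r * L) + z * L := by omega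
        _ = z * ((4 * r + 1) * L) := by ring
        _ ≤ z * (2 * S r) := h1
        _ = 2 * z * S r := by ring
  · have h1 : z * (4 * r * L) ≤ z * (2 * S r) := Nat.mul_le_mul_left z (hlow r)
    have h2 : 2 * z * q * L * (4 * z) ≤ 2 * z * q * L * L := Nat.mul_le_mul_left _ h4
    have h3 : q * z * L ≤ q * z * L * z := Nat.le_mul_of_pos_right _ hz1
    have h5 : r * L ≤ q * z * L := by
      apply Nat.mul_le_mul_right
      exact hr.le.trans (Nat.le_mul_of_pos_left z h)
    calc (2 * z + 1) * ((r + q * z) * L) + 2 * z * ((r + q * z) * L)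
        = z * (4 * r * L) + 4 * (q * z * L * z) + q * z * L + r * L := by ring
      _ ≤ z * (2 * S r) + 8 * (q * z * L * z) := by omega
      _ = z * (2 * S r) + 2 * z * q * L * (4 * z) := by ring
      _ ≤ z * (2 * S r) + 2 * z * q * L * L := by omega
      _ = 2 * z * (S r + q * (L * L)) := by ring

end Pool.Agent.Q210.RWT.PTMean
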