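import Pool.Agent.Q210.RWT.Stmts

namespace Pool.Agent.Q210.RWT.TPer

open Finset

/-- the corrected statement (`1 ≤ k`) -/
def Stmt : Prop := ∀ (d L : ℕ) (a : ℕ → Fin (d + 1)), Per L a → Zinf a → ∀ s k, 1 ≤ k →
  zpos (sh a s) (k + zc a L) = zpos (sh a s) k + L

theorem zc_count {d : ℕ} (b : ℕ → Fin (d + 1)) (c : ℕ) :
    zc b c = Nat.count (fun x => b x = 0) c := by
  unfold zc
  rw [Nat.count_eq_card_filter_range]

theorem zc_add {d L : ℕ} (b : ℕ → Fin (d + 1)) (hb : Per L b) (c : ℕ) :
    zc b (c + L) = zc b c + zc b L := by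
  rw [zc_count, zc_count, zc_count, add_comm c L, Nat.count_add]
  have : (fun k => b (L + k) = 0) = fun k => b k = 0 := by
    funext k
    rw [Nat.add_comm L k, hb k]
  simp only [this]
  omega

theorem zc_sh {d L : ℕ} (a : ℕ → Fin (d + 1)) (ha : Per L a) (s : ℕ) :
    zc (sh a s) L = zc a L := by
  have h1 := zc_add a ha s
  have h2 : zc a (s + L) = zc a s + zc (sh a s) L := by
    rw [zc_count, zc_count, zc_count, Nat.count_add]
    congr 2
    funext k
    unfold sh
    rw [Nat.add_comm s k]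
  omega

theorem per_sh {d L : ℕ} (a : ℕ → Fin (d + 1)) (ha : Per L a) (s : ℕ) : Per L (sh a s) := by
  intro x
  unfold sh
  rw [show x + L + s = x + s + L by ring]
  exact ha _

theorem zinf_sh {d : ℕ} (a : ℕ → Fin (d + 1)) (ha : Zinf a) (s : ℕ) : Zinf (sh a s) := by
  intro N
  obtain ⟨y, hy, h0⟩ := ha (N + s)
  refine ⟨y - s, by omega, ?_⟩
  unfold sh
  rw [show y - s + s = y by omega]
  exact h0

theorem zc_mono {d : ℕ} (b : ℕ → Fin (d + 1)) {c c' : ℕ} (h : c ≤ c') : zc b c ≤ zc b c' := by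
  rw [zc_count, zc_count]
  exact Nat.count_monotone _ h

theorem main (hZ2 : TZ2) : Stmt := by
  intro d L a hper hz s k hk
  set b := sh a s with hb
  have hbp : Per L b := per_sh a hper s
  have hbz : Zinf b := zinf_sh a hz s
  have hbL : zc b L = zc a L := zc_sh a hper s
  have key : ∀ c, c < zpos b (k + zc a L) ↔ c < zpos b k + L := by
    intro c
    rw [← hZ2 d b hbz c (k + zc a L)]
    rcases le_or_gt L c with h | h
    · obtain ⟨c', rfl⟩ := Nat.exists_eq_add_of_le' h
      rw [zc_add b hbp, hbL, Nat.add_lt_add_iff_right, hZ2 d b hbz c' k, Nat.add_lt_add_iff_right]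
    · have h1 : zc b c ≤ zc a L := by
        rw [← hbL]
        exact zc_mono b h.le
      constructor
      · intro _
        omega
      · intro _
        omega
  have h1 := key (zpos b k + L)
  have h2 := key (zpos b (k + zc a L))
  omega

end Pool.Agent.Q210.RWT.TPer
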