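import Pool.Agent.Q210.RWT.Stmts

namespace Pool.Agent.Q210.RWT.PTMeas

open MeasureTheory ProbabilityTheory Finset Pool.Agent.Q210.RWT

theorem main : Pool.Agent.Q210.RWT.TMeas := by
  intro Ω _ P d L K hK a n v
  induction v with
  | nil => exact measurable_const
  | cons i v ih =>
    have h1 : Measurable (fun q : ℕ × ℕ => uc (sh a q.1) i (zpos (sh a q.1) q.2)) :=
      measurable_of_countable _
    exact h1.comp ((hK.meas v).prodMk ih)

end Pool.Agent.Q210.RWT.PTMeas
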