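import Pool.Agent.Q210.RWT.Stmts

namespace Pool.Agent.Q210.RWT.PTOsc

open Finset Pool.Agent.Q210.RWT

/-- `TOsc` with the missing hypothesis `1 ≤ L`. -/
def TOsc1 : Prop := ∀ (d L : ℕ) (a : ℕ → Fin (d + 1)), Per L a → Zinf a → 1 ≤ L → ∀ k, ∀ s s' : ℕ,
  zpos (sh a s) k ≤ zpos (sh a s') k + L

lemma zinf_sh {d : ℕ} {a : ℕ → Fin (d + 1)} (h : Zinf a) (s : ℕ) : Zinf (sh a s) := by
  intro N
  obtain ⟨y, hy, h0⟩ := h (N + s)
  refine ⟨y - s, by omega, ?_⟩
  show a (y - s + s) = 0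
  rw [Nat.sub_add_cancel (by omega)]
  exact h0

lemma zc_shift {d : ℕ} (a : ℕ → Fin (d + 1)) (s e c : ℕ) :
    zc (sh a (s + e)) c ≤ zc (sh a s) (c + e) := by
  unfold zc
  refine Finset.card_le_card_of_injOn (fun x => x + e) ?_ ?_
  · intro x hx
    have h := Finset.mem_filter.1 hx
    have h1 : x < c := Finset.mem_range.1 h.1
    have h2 : a (x + (s + e)) = 0 := h.2
    refine Finset.mem_coe.2 (Finset.mem_filter.2 ⟨Finset.mem_range.2 (by show x + e < c + e; omega), ?_⟩)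
    show a (x + e + s) = 0
    rw [show x + e + s = x + (s + e) by ring]
    exact h2
  · intro x _ y _ hxy
    have : x + e = y + e := hxy
    omega

lemma per_mul {d L : ℕ} {a : ℕ → Fin (d + 1)} (h : Per L a) (j x : ℕ) : a (x + L * j) = a x := by
  induction j with
  | zero => simp
  | succ j ih => rw [Nat.mul_succ, ← add_assoc, h, ih]

theorem main (hZ1 : TZ1) (hZ2 : TZ2) : TOsc1 := by
  intro d L a hper hinf hL k s s'
  obtain ⟨T, hT⟩ : ∃ T, T = s' + (L - 1) * s := ⟨_, rfl⟩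
  obtain ⟨r, hr⟩ : ∃ r, r = T % L := ⟨_, rfl⟩
  have hrL : r < L := by rw [hr]; exact Nat.mod_lt _ (by omega)
  have hTr : L * (T / L) + r = T := by rw [hr]; exact Nat.div_add_mod T L
  have hsT : s + T = s' + L * s := by
    rw [hT]
    obtain ⟨l, rfl⟩ : ∃ l, L = l + 1 := ⟨L - 1, by omega⟩
    rw [Nat.add_sub_cancel]
    ring
  have hsh : sh a (s + r) = sh a s' := by
    funext x
    show a (x + (s + r)) = a (x + s')
    rw [← per_mul hper (T / L) (x + (s + r)), ← per_mul hper s (x + s')]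
    congr 1
    calc x + (s + r) + L * (T / L) = x + (s + (L * (T / L) + r)) := by ring
      _ = x + (s + T) := by rw [hTr]
      _ = x + s' + L * s := by rw [hsT]; ring
  have h1 : k ≤ zc (sh a s) (zpos (sh a (s + r)) k + r) := by
    have h2 := zc_shift a s r (zpos (sh a (s + r)) k)
    rw [hZ1 d (sh a (s + r)) (zinf_sh hinf _) k] at h2
    exact h2
  have h3 : zpos (sh a s) k ≤ zpos (sh a (s + r)) k + r := by
    by_contra hlt
    have h4 := (hZ2 d (sh a s) (zinf_sh hinf _) (zpos (sh a (s + r)) k + r) k).2 (by omega)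
    omega
  rw [hsh] at h3
  omega

end Pool.Agent.Q210.RWT.PTOsc
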