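import Pool.Agent.Q210.RWT.Stmts

set_option autoImplicit false
set_option linter.all false

namespace Pool.Agent.Q210.RWT.PTReach

open Pool.Agent.Q210.RWT

variable {d : ℕ} (A : V d → ℕ → Fin (d + 1))

lemma walk_succ (t : ℕ) : walk A (t + 1) = (nb (walk A t).1 (A (walk A t).1 ((walk A t).2 (walk A t).1)),
      Function.update (walk A t).2 (walk A t).1 ((walk A t).2 (walk A t).1 + 1)) := rfl

lemma step_ne (t : ℕ) (h : (walk A t).1 ≠ []) : (walk A (t + 1)).2 [] = (walk A t).2 [] := by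
  rw [walk_succ]
  exact Function.update_of_ne (Ne.symm h) _ _

lemma step_eq (t : ℕ) (h : (walk A t).1 = []) : (walk A (t + 1)).2 [] = (walk A t).2 [] + 1 := by
  rw [walk_succ]
  simp only [h]
  exact Function.update_self ([] : V d) ((walk A t).2 [] + 1) (walk A t).2

lemma stay (t s : ℕ) (hts : t ≤ s) (h : ∀ u, t ≤ u → u < s → (walk A u).1 ≠ []) :
    (walk A s).2 [] = (walk A t).2 [] := by
  induction s, hts using Nat.le_induction with
  | base => rfl
  | succ s hs ih =>
    rw [step_ne A s (h s hs (Nat.lt_succ_self s))]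
    exact ih (fun u h1 h2 => h u h1 (Nat.lt_succ_of_lt h2))

lemma exists_time (hR : Recurrent A) : ∀ c : ℕ, ∃ t, (walk A t).1 = [] ∧ (walk A t).2 [] = c := by
  intro c
  induction c with
  | zero => exact ⟨0, rfl, rfl⟩
  | succ c ih =>
    obtain ⟨t, h1, h2⟩ := ih
    have hex : ∃ s, t + 1 ≤ s ∧ (walk A s).1 = [] := hR (t + 1)
    classical
    refine ⟨Nat.find hex, (Nat.find_spec hex).2, ?_⟩
    rw [stay A (t + 1) (Nat.find hex) (Nat.find_spec hex).1, step_eq A t h1, h2]
    intro u hu1 hu2 hu3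
    exact Nat.find_min hex hu2 ⟨hu1, hu3⟩

theorem main : TReach := by
  intro d A hZ hR n
  cases n with
  | zero => exact ⟨0, rfl, rfl⟩
  | succ n =>
    obtain ⟨t, h1, h2⟩ := exists_time A hR (Nat.nth (fun x => A [] x = 0) n)
    have hinf : (setOf (fun x => A [] x = 0)).Infinite := by
      rw [Set.infinite_iff_exists_gt]
      intro N
      obtain ⟨x, hx1, hx2⟩ := hZ (N + 1)
      exact ⟨x, hx2, by omega⟩
    have h0 : A [] (Nat.nth (fun x => A [] x = 0) n) = 0 := Nat.nth_mem_of_infinite hinf n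
    refine ⟨t + 1, ?_, ?_⟩
    · rw [walk_succ, h1, h2, h0]
      rfl
    · rw [step_eq A t h1, h2]
      rfl

end Pool.Agent.Q210.RWT.PTReach
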