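import Pool.Agent.Q210.RWT.Stmts

set_option autoImplicit false
set_option linter.all false

namespace Pool.Agent.Q210.RWT.PTRecZ

open Pool.Agent.Q210.RWT Finset

private lemma c_succ {d : ℕ} (A : V d → ℕ → Fin (d + 1)) (t : ℕ) :
    (walk A (t + 1)).2 [] = (walk A t).2 [] + if (walk A t).1 = [] then 1 else 0 := by
  show Function.update (walk A t).2 (walk A t).1 ((walk A t).2 (walk A t).1 + 1) [] = _
  by_cases h : (walk A t).1 = []
  · rw [if_pos h, h, Function.update_self]
  · rw [if_neg h, Function.update_of_ne (Ne.symm h)]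
    rfl

private lemma c_mono {d : ℕ} (A : V d → ℕ → Fin (d + 1)) : Monotone (fun t => (walk A t).2 []) := by
  refine monotone_nat_of_le_succ fun t => ?_
  show (walk A t).2 [] ≤ (walk A (t + 1)).2 []
  rw [c_succ]
  exact Nat.le_add_right _ _

private lemma zc_mono {d : ℕ} (b : ℕ → Fin (d + 1)) : Monotone (zc b) := by
  intro x y h
  unfold zc
  refine Finset.card_le_card (Finset.filter_subset_filter _ ?_)
  exact Finset.range_subset_range.2 h

private lemma zc_le {d : ℕ} (b : ℕ → Fin (d + 1)) (c : ℕ) : zc b c ≤ c := by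
  unfold zc
  exact (Finset.card_filter_le _ _).trans (by simp)

private lemma zc_inf {d : ℕ} (b : ℕ → Fin (d + 1)) (h : Zinf b) : ∀ n, ∃ c, n ≤ zc b c := by
  intro n
  induction n with
  | zero => exact ⟨0, Nat.zero_le _⟩
  | succ n ih =>
    obtain ⟨c, hc⟩ := ih
    obtain ⟨x, hx, hx0⟩ := h c
    refine ⟨x + 1, ?_⟩
    have h1 : zc b (x + 1) = zc b x + 1 := by
      unfold zc
      rw [Finset.range_add_one, Finset.filter_insert, if_pos hx0, Finset.card_insert_of_notMem]
      simp
    have h2 := zc_mono b hx
    omega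

theorem main : Pool.Agent.Q210.RWT.TRecZ := by
  intro d A hz
  constructor
  · intro hr n
    obtain ⟨c, hc⟩ := zc_inf (A []) hz n
    have key : ∀ M : ℕ, ∃ t, M ≤ (walk A t).2 [] := by
      intro M
      induction M with
      | zero => exact ⟨0, Nat.zero_le _⟩
      | succ M ih =>
        obtain ⟨t0, ht0⟩ := ih
        obtain ⟨t, ht, hroot⟩ := hr t0
        refine ⟨t + 1, ?_⟩
        rw [c_succ, if_pos hroot]
        have := c_mono A ht
        simp only at this
        omega
    obtain ⟨t, ht⟩ := key c
    exact ⟨t, hc.trans (zc_mono _ ht)⟩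
  · intro h N
    by_contra hcon
    push Not at hcon
    have hconst : ∀ s, N ≤ s → (walk A s).2 [] = (walk A N).2 [] := by
      intro s hs
      induction s, hs using Nat.le_induction with
      | base => rfl
      | succ s hs ih => rw [c_succ, if_neg (hcon s hs), ih, Nat.add_zero]
    obtain ⟨t, ht⟩ := h ((walk A N).2 [] + 1)
    have h1 : (walk A N).2 [] + 1 ≤ (walk A t).2 [] := ht.trans (zc_le _ _)
    rcases le_total N t with h2 | h2
    · have := hconst t h2
      omega
    · have := c_mono A h2
      simp only at this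
      omega

end Pool.Agent.Q210.RWT.PTRecZ
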