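import Pool.Agent.Q210.RWT.Stmts

namespace Pool.Agent.Q210.RWT.PTRep

open Pool.Agent.Q210.RWT Finset

theorem per_sum (L : ℕ) (g : ℕ → ℕ) (hg : ∀ s, g (s + L) = g s) (k : ℕ) :
    ∑ s ∈ range (L * k), g s = k * ∑ s ∈ range L, g s := by
  have hmul : ∀ j x, g (L * j + x) = g x := by
    intro j
    induction j with
    | zero => intro x; simp
    | succ j ih =>
      intro x
      have : L * (j + 1) + x = (L * j + x) + L := by ring
      rw [this, hg, ih]
  induction k with
  | zero => simp
  | succ k ih =>
    have : L * (k + 1) = L * k + L := by ring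
    rw [this, Finset.sum_range_add, ih, Finset.sum_congr rfl fun x _ => hmul k x]
    ring

theorem main : Pool.Agent.Q210.RWT.TRep := by
  intro d L a hper k
  refine per_sum L (fun s => zpos (sh a s) k) ?_ k
  intro s
  have : sh a (s + L) = sh a s := by
    funext x
    show a (x + (s + L)) = a (x + s)
    rw [← add_assoc]
    exact hper _
  show zpos (sh a (s + L)) k = zpos (sh a s) k
  rw [this]

end Pool.Agent.Q210.RWT.PTRep
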