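import Pool.Agent.Q210.RWT.Stmts

set_option autoImplicit false

namespace Pool.Agent.Q210.RWT.PTStep

open MeasureTheory ProbabilityTheory Finset Pool.Agent.Q210.RWT

theorem zinf_sh {d : ℕ} {a : ℕ → Fin (d + 1)} (h : Zinf a) (s : ℕ) : Zinf (sh a s) := by
  intro N
  obtain ⟨x, hx, hx0⟩ := h (N + s)
  refine ⟨x - s, by omega, ?_⟩
  show a (x - s + s) = 0
  rwa [Nat.sub_add_cancel (by omega)]

theorem z_pos {d L : ℕ} {a : ℕ → Fin (d + 1)} (ha : Per L a) (hz : Zinf a) (hL : 1 ≤ L) :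
    1 ≤ zc a L := by
  obtain ⟨x, -, hx⟩ := hz 0
  have hq : ∀ y q : ℕ, a (y + L * q) = a y := by
    intro y q
    induction q with
    | zero => simp
    | succ q ih => rw [Nat.mul_succ, ← Nat.add_assoc, ha, ih]
  have h0 : a (x % L) = 0 := by
    rw [← hq (x % L) (x / L), Nat.mod_add_div]; exact hx
  exact Finset.card_pos.mpr ⟨x % L, Finset.mem_filter.mpr
    ⟨Finset.mem_range.mpr (Nat.mod_lt _ (by omega)), h0⟩⟩

theorem fixed (hChe : TChe) (hMean : TMean) (hOsc : TOsc) {Ω : Type} [MeasurableSpace Ω]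
    (P : Measure Ω) [IsProbabilityMeasure P]
    {d L : ℕ} {K : V d → Ω → ℕ} (hU : Unif P d L K) {a : ℕ → Fin (d + 1)} (ha : Per L a)
    (hz : Zinf a) (hL : 1 ≤ L) (h4 : 4 * zc a L ≤ L) (m : ℕ) (r : ℝ) (hr : 0 < r)
    (x : (Fin m → Fin d) → ℕ) (hx : r ≤ ((∑ w, x w : ℕ) : ℝ)) :
    P {ω | ((∑ w, zpos (sh a (K (List.ofFn w) ω)) (x w) : ℕ) : ℝ) <
      (2 + 1 / (4 * (zc a L : ℝ))) * ((∑ w, x w : ℕ) : ℝ)} ≤
    ENNReal.ofReal (16 * (zc a L : ℝ) ^ 2 * (L : ℝ) ^ 2 / r) := by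
  classical
  have hz1 : 1 ≤ zc a L := z_pos ha hz hL
  obtain ⟨z, hzdef⟩ : ∃ z : ℕ, z = zc a L := ⟨_, rfl⟩
  obtain ⟨S, hS⟩ : ∃ S : ℝ, S = ((∑ w, x w : ℕ) : ℝ) := ⟨_, rfl⟩
  rw [← hzdef, ← hS]
  rw [← hzdef] at hz1
  rw [← hS] at hx
  have hzR : (1 : ℝ) ≤ z := by exact_mod_cast hz1
  have hLR : (1 : ℝ) ≤ L := by exact_mod_cast hL
  have hS0 : 0 < S := lt_of_lt_of_le hr hx
  have hinj : Function.Injective (fun w : Fin m → Fin d => (List.ofFn w : V d)) :=
    List.ofFn_injective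
  have mean : ∀ k : ℕ, (2 + 1 / (2 * (z : ℝ))) * k ≤
      (∑ s ∈ range L, (zpos (sh a s) k : ℝ)) / L := by
    intro k
    have h := hMean d L a ha hz hL h4 k
    rw [← hzdef] at h
    have h' : (2 * (z : ℝ) + 1) * (k * L) + 2 * z * (k * L) ≤
        2 * z * ∑ s ∈ range L, (zpos (sh a s) k : ℝ) := by exact_mod_cast h
    rw [le_div_iff₀ (by linarith)]
    have e : (2 + 1 / (2 * (z : ℝ))) * k * L =
        ((2 * (z : ℝ) + 1) * (k * L) + 2 * z * (k * L)) / (2 * z) := by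
      field_simp
      ring
    rw [e, div_le_iff₀ (by linarith)]
    linarith
  have hS' : S = ∑ w, (x w : ℝ) := by rw [hS, Nat.cast_sum]
  have hmeanS : (2 + 1 / (2 * (z : ℝ))) * S ≤
      ∑ w, (∑ s ∈ range L, (zpos (sh a s) (x w) : ℝ)) / L := by
    rw [hS', Finset.mul_sum]
    exact Finset.sum_le_sum fun w _ => mean (x w)
  refine (measure_mono ?_).trans ((hChe Ω P (Fin m → Fin d) (fun w => K (List.ofFn w)) L hL
    (fun w => hU.meas _) (hU.ind.precomp hinj) (fun w s hs => hU.unif _ s hs)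
    (fun w s => (zpos (sh a s) (x w) : ℝ)) (Finset.univ.filter (fun w => x w ≠ 0)) L
    (S / (4 * z)) (by positivity) (by positivity) ?_ ?_).trans ?_)
  · intro ω hω
    have hω' : ((∑ w, zpos (sh a (K (List.ofFn w) ω)) (x w) : ℕ) : ℝ) <
      (2 + 1 / (4 * (z : ℝ))) * S := hω
    show ∑ w, (zpos (sh a (K (List.ofFn w) ω)) (x w) : ℝ) ≤
      ∑ w, (∑ s ∈ range L, (zpos (sh a s) (x w) : ℝ)) / L - S / (4 * z)
    rw [Nat.cast_sum] at hω'
    have e : (2 + 1 / (4 * (z : ℝ))) * S = (2 + 1 / (2 * (z : ℝ))) * S - S / (4 * z) := by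
      field_simp
      ring
    rw [e] at hω'
    linarith
  · intro w s _ s' _
    have h1 := hOsc d L a ha hz (x w) s s'
    have h2 := hOsc d L a ha hz (x w) s' s
    have h1' : (zpos (sh a s) (x w) : ℝ) ≤ zpos (sh a s') (x w) + L := by exact_mod_cast h1
    have h2' : (zpos (sh a s') (x w) : ℝ) ≤ zpos (sh a s) (x w) + L := by exact_mod_cast h2
    rw [abs_le]
    constructor <;> linarith
  · intro w hw s
    have : x w = 0 := by
      by_contra h
      exact hw (Finset.mem_filter.mpr ⟨Finset.mem_univ _, h⟩)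
    show ((zpos (sh a s) (x w) : ℕ) : ℝ) = 0
    rw [this]
    simp [zpos]
  · refine ENNReal.ofReal_le_ofReal ?_
    have hcard : (((Finset.univ.filter (fun w => x w ≠ 0)).card : ℕ) : ℝ) ≤ S := by
      rw [hS]
      have : (Finset.univ.filter (fun w => x w ≠ 0)).card ≤ ∑ w, x w := by
        rw [Finset.card_filter]
        refine Finset.sum_le_sum fun w _ => ?_
        split_ifs with h
        · exact Nat.one_le_iff_ne_zero.mpr h
        · exact Nat.zero_le _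
      exact_mod_cast this
    have e : (L : ℝ) ^ 2 * (((Finset.univ.filter (fun w => x w ≠ 0)).card : ℕ) : ℝ) / (S / (4 * z)) ^ 2 =
        16 * (z : ℝ) ^ 2 * L ^ 2 * ((((Finset.univ.filter (fun w => x w ≠ 0)).card : ℕ) : ℝ) / S ^ 2) := by
      field_simp
      ring
    have e2 : 16 * (z : ℝ) ^ 2 * (L : ℝ) ^ 2 / r = 16 * (z : ℝ) ^ 2 * (L : ℝ) ^ 2 * (1 / r) := by ring
    rw [e, e2]
    refine mul_le_mul_of_nonneg_left ?_ (by positivity)
    rw [div_le_iff₀ (by positivity)]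
    have h1 : S ≤ 1 / r * S ^ 2 := by
      rw [div_mul_eq_mul_div, le_div_iff₀ hr]
      nlinarith
    have h2 : (1 / r * S ^ 2) = 1 / r * S ^ 2 := rfl
    linarith

theorem main (hChe : TChe) (hInd : TInd) (hTot : TTot) (hMean : TMean) (hOsc : TOsc)
    (hMeas : TMeas) : Pool.Agent.Q210.RWT.TStep := by
  intro Ω _ P _ d L K hU a ha hz hL h4 n m r hr
  classical
  obtain ⟨X, hX⟩ : ∃ X : Ω → ((Fin m → Fin d) → ℕ),
    X = fun ω w => flow (cfg a K ω) n (List.ofFn w) := ⟨_, rfl⟩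
  obtain ⟨Y, hY⟩ : ∃ Y : Ω → ((Fin m → Fin d) → ℕ), Y = fun ω w => K (List.ofFn w) ω := ⟨_, rfl⟩
  have hXY : IndepFun X Y P := by rw [hX, hY]; exact hInd Ω P d L K hU a n m
  have hXm : Measurable X := by
    rw [hX]; exact measurable_pi_lambda _ fun w => hMeas Ω P d L K hU a n _
  obtain ⟨C, hC⟩ : ∃ C, C = ENNReal.ofReal (16 * (zc a L : ℝ) ^ 2 * (L : ℝ) ^ 2 / r) := ⟨_, rfl⟩
  obtain ⟨B, hB⟩ : ∃ B : ((Fin m → Fin d) → ℕ) → Set ((Fin m → Fin d) → ℕ), B = fun x =>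
    {y | r ≤ ((∑ w, x w : ℕ) : ℝ) ∧ ((∑ w, zpos (sh a (y w)) (x w) : ℕ) : ℝ) <
      (2 + 1 / (4 * (zc a L : ℝ))) * ((∑ w, x w : ℕ) : ℝ)} := ⟨_, rfl⟩
  rw [← hC]
  have hsub : {ω | r ≤ tot (cfg a K ω) n m ∧
      (tot (cfg a K ω) n (m + 1) : ℝ) < (1 + 1 / (4 * (zc a L : ℝ))) * tot (cfg a K ω) n m} ⊆
      ⋃ x, (X ⁻¹' {x} ∩ Y ⁻¹' (B x)) := by
    rintro ω ⟨h1, h2⟩
    rw [Set.mem_iUnion]
    refine ⟨X ω, rfl, ?_⟩
    have ht := hTot d (cfg a K ω) (fun v => zinf_sh hz _) n m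
    have hS : tot (cfg a K ω) n m = ∑ w, X ω w := by rw [hX]; rfl
    have ht' : ((tot (cfg a K ω) n (m + 1) : ℕ) : ℝ) + (tot (cfg a K ω) n m : ℕ) =
        ((∑ w : Fin m → Fin d, zpos (cfg a K ω (List.ofFn w)) (flow (cfg a K ω) n (List.ofFn w)) : ℕ) : ℝ) := by
      exact_mod_cast ht
    rw [hB]
    refine ⟨by rw [← hS]; exact h1, ?_⟩
    have e : (∑ w, zpos (sh a (Y ω w)) (X ω w)) = ∑ w : Fin m → Fin d,
        zpos (cfg a K ω (List.ofFn w)) (flow (cfg a K ω) n (List.ofFn w)) := by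
      rw [hX, hY]; rfl
    rw [e, ← ht', ← hS]
    nlinarith
  calc P _ ≤ P (⋃ x, (X ⁻¹' {x} ∩ Y ⁻¹' (B x))) := measure_mono hsub
    _ ≤ ∑' x, P (X ⁻¹' {x} ∩ Y ⁻¹' (B x)) := measure_iUnion_le _
    _ = ∑' x, P (X ⁻¹' {x}) * P (Y ⁻¹' B x) := by
        congr with x
        exact hXY.measure_inter_preimage_eq_mul _ _ (MeasurableSet.of_discrete) (MeasurableSet.of_discrete)
    _ ≤ ∑' x, P (X ⁻¹' {x}) * C := by
        refine ENNReal.tsum_le_tsum fun x => ?_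
        gcongr
        by_cases hx : r ≤ ((∑ w, x w : ℕ) : ℝ)
        · rw [hC]
          refine (measure_mono ?_).trans (fixed hChe hMean hOsc P hU ha hz hL h4 m r hr x hx)
          intro ω hω
          rw [hB, hY] at hω
          exact hω.2
        · have : Y ⁻¹' B x = ∅ := by
            rw [Set.eq_empty_iff_forall_notMem]
            intro ω hω
            rw [hB] at hω
            exact hx hω.1
          rw [this, measure_empty]
          exact bot_le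
    _ = (∑' x, P (X ⁻¹' {x})) * C := ENNReal.tsum_mul_right
    _ ≤ 1 * C := by
        gcongr
        rw [← measure_iUnion]
        · exact prob_le_one
        · intro x x' hxx
          rw [Function.onFun, Set.disjoint_left]
          intro ω h1 h2
          exact hxx (h1.symm.trans h2)
        · intro x
          exact hXm (measurableSet_singleton x)
    _ = C := one_mul _

end Pool.Agent.Q210.RWT.PTStep
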