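import Pool.Agent.Q210.RWT.Stmts

set_option autoImplicit false

namespace Pool.Agent.Q210.RWT.PTSum

open Pool.Agent.Q210.RWT Finset

theorem main : Pool.Agent.Q210.RWT.TSum := by
  intro d A t
  induction t with
  | zero =>
    intro F _
    simp [walk]
  | succ t ih =>
    intro F hF
    have hstep : ∀ v, (walk A (t + 1)).2 v =
        (walk A t).2 v + if v = (walk A t).1 then 1 else 0 := by
      intro v
      show Function.update (walk A t).2 (walk A t).1 ((walk A t).2 (walk A t).1 + 1) v = _
      by_cases h : v = (walk A t).1
      · rw [if_pos h, h, Function.update_self]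
      · rw [if_neg h, Function.update_of_ne h, add_zero]
    have hp : (walk A t).1 ∈ F := by
      by_contra h
      have := hF _ h
      rw [hstep, if_pos rfl] at this
      omega
    have hF' : ∀ v, v ∉ F → (walk A t).2 v = 0 := by
      intro v hv
      have := hF v hv
      rw [hstep] at this
      omega
    rw [Finset.sum_congr rfl (fun v _ => hstep v), Finset.sum_add_distrib, ih F hF',
      Finset.sum_ite_eq' F (walk A t).1 (fun _ => 1), if_pos hp]

end Pool.Agent.Q210.RWT.PTSum
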