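import Pool.Agent.Q210.RWT.Stmts

namespace Pool.Agent.Q210.RWT.PTSurv

open MeasureTheory ProbabilityTheory Finset Pool.Agent.Q210.RWT

private theorem per_mod {d L : ℕ} {a : ℕ → Fin (d + 1)} (h : Per L a) (x q : ℕ) : a (x + q * L) = a x := by
  induction q with
  | zero => simp
  | succ q ih =>
    have : x + (q + 1) * L = (x + q * L) + L := by ring
    rw [this, h, ih]

private theorem zc_pos {d L : ℕ} {a : ℕ → Fin (d + 1)} (h : Per L a) (hz : Zinf a) (hL : 1 ≤ L) :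
    1 ≤ zc a L := by
  obtain ⟨x, -, hx⟩ := hz 0
  unfold zc
  rw [Nat.one_le_iff_ne_zero, ← Nat.pos_iff_ne_zero, Finset.card_pos]
  refine ⟨x % L, ?_⟩
  rw [Finset.mem_filter, Finset.mem_range]
  refine ⟨Nat.mod_lt _ (by omega), ?_⟩
  have h1 := per_mod h (x % L) (x / L)
  have h2 : x % L + x / L * L = x := Nat.mod_add_div' x L
  rw [h2] at h1
  rw [← h1, hx]

private theorem tot_zero {d : ℕ} (A : V d → ℕ → Fin (d + 1)) (n : ℕ) : tot A n 0 = n := by
  unfold tot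
  simp [flow]

theorem main (hS : TStep) (hG : TGrow) : TSurv := by
  intro Ω _ P _ d L K hU a hp hz hL h4
  have hz1 := zc_pos hp hz hL
  have hz1' : (0 : ℝ) < (zc a L : ℝ) := by exact_mod_cast hz1
  set ρ : ℝ := 1 + 1 / (4 * (zc a L : ℝ)) with hρ
  set C : ℝ := 16 * (zc a L : ℝ) ^ 2 * (L : ℝ) ^ 2 with hC
  have hρ1 : 1 < ρ := by
    rw [hρ]
    have : 0 < 1 / (4 * (zc a L : ℝ)) := by positivity
    linarith
  have hC0 : 0 ≤ C := by rw [hC]; positivity
  have key : ∀ n : ℕ, 0 < n → P {ω | ∀ n, ∃ m, tot (cfg a K ω) n m = 0} ≤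
      ENNReal.ofReal (C * ρ / (ρ - 1) / n) := by
    intro n hn
    have hn' : (0 : ℝ) < (n : ℝ) := by exact_mod_cast hn
    have h1 := hG Ω P (fun m ω => (tot (cfg a K ω) n m : ℝ)) n C ρ hn' hC0 hρ1
      (fun ω => by simp only [tot_zero]) (fun m r hr => hS Ω P d L K hU a hp hz hL h4 n m r hr)
    refine le_trans (measure_mono ?_) h1
    intro ω hω
    obtain ⟨m, hm⟩ := hω n
    exact ⟨m, by simp only [hm, Nat.cast_zero]⟩
  rw [ae_iff]
  have hset : {ω | ¬ ¬ ∀ n, ∃ m, tot (cfg a K ω) n m = 0} =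
      {ω | ∀ n, ∃ m, tot (cfg a K ω) n m = 0} := by
    ext ω
    simp only [not_not, Set.mem_setOf_eq]
  rw [hset]
  have hlim : Filter.Tendsto (fun n : ℕ => ENNReal.ofReal (C * ρ / (ρ - 1) / n)) Filter.atTop
      (nhds (ENNReal.ofReal 0)) := by
    refine (ENNReal.continuous_ofReal.tendsto 0).comp ?_
    exact tendsto_const_div_atTop_nhds_zero_nat _
  rw [ENNReal.ofReal_zero] at hlim
  have h0 : P {ω | ∀ n, ∃ m, tot (cfg a K ω) n m = 0} ≤ 0 := by
    refine ge_of_tendsto hlim ?_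
    filter_upwards [Filter.eventually_gt_atTop 0] with n hn using key n hn
  exact le_antisymm h0 bot_le

end Pool.Agent.Q210.RWT.PTSurv
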