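import Pool.Agent.Q210.RWT.Stmts

set_option autoImplicit false

namespace Pool.Agent.Q210.RWT.TTot

open Finset

theorem main (h1 : TZ1) (h3 : TZ3) : Pool.Agent.Q210.RWT.TTot := by
  intro d A hA n m
  have key : tot A n (m + 1) = ∑ w : Fin m → Fin d, ∑ i : Fin d, flow A n (i :: List.ofFn w) := by
    unfold tot
    rw [← Equiv.sum_comp (Fin.consEquiv (fun _ : Fin (m + 1) => Fin d)) (fun w => flow A n (List.ofFn w)),
      Fintype.sum_prod_type, Finset.sum_comm]
    refine Finset.sum_congr rfl fun w _ => Finset.sum_congr rfl fun i _ => ?_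
    congr 1
    rw [List.ofFn_succ]
    simp [Fin.consEquiv]
  rw [key]
  unfold tot
  rw [← Finset.sum_add_distrib]
  refine Finset.sum_congr rfl fun w _ => ?_
  set v := List.ofFn w with hv
  have h4 := h3 d (A v) (zpos (A v) (flow A n v))
  rw [h1 d (A v) (hA v) (flow A n v)] at h4
  have h5 : (∑ i : Fin d, flow A n (i :: v)) = ∑ i, uc (A v) i (zpos (A v) (flow A n v)) :=
    Finset.sum_congr rfl fun i _ => rfl
  rw [h5]
  exact h4

end Pool.Agent.Q210.RWT.TTot
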