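import Pool.Agent.Q210.RWT.Stmts

namespace Pool.Agent.Q210.RWT.PTTot0

open Pool.Agent.Q210.RWT Finset

theorem main : Pool.Agent.Q210.RWT.TTot0 := by
  intro d A n m
  unfold tot
  rw [Finset.sum_eq_zero_iff]
  constructor
  · intro h v
    have key : ∀ v : V d, v.length = m → flow A n v = 0 := by
      intro v hv
      subst hv
      have := h v.get (mem_univ _)
      rwa [List.ofFn_get] at this
    induction v with
    | nil =>
      intro hm
      exact key [] (by simp at hm; simp [hm])
    | cons i v ih =>
      intro hm
      rcases Nat.lt_or_ge v.length m with h1 | h1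
      · exact key (i :: v) (by simp at hm ⊢; omega)
      · have h0 := ih h1
        show uc (A v) i (zpos (A v) (flow A n v)) = 0
        rw [h0]
        simp [zpos, uc]
  · intro h w _
    exact h _ (by simp)

end Pool.Agent.Q210.RWT.PTTot0
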