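import Pool.Agent.Q210.RWT.Stmts

set_option autoImplicit false

namespace Pool.Agent.Q210.RWT.PTZ1

open Pool.Agent.Q210.RWT Finset

theorem zc_eq {d : ℕ} (b : ℕ → Fin (d + 1)) (c : ℕ) : zc b c = Nat.count (fun x => b x = 0) c := by
  unfold zc
  rw [Nat.count_eq_card_filter_range]

theorem inf {d : ℕ} (b : ℕ → Fin (d + 1)) (hb : Zinf b) : {x | b x = 0}.Infinite := by
  rw [Set.infinite_iff_exists_gt]
  intro N
  obtain ⟨x, hx, hx0⟩ := hb (N + 1)
  exact ⟨x, hx0, by omega⟩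

theorem main : Pool.Agent.Q210.RWT.TZ1 := by
  intro d b hb k
  have hi := inf b hb
  rw [zc_eq]
  cases k with
  | zero => simp [zpos]
  | succ k =>
    show Nat.count _ (Nat.nth (fun x => b x = 0) k + 1) = k + 1
    rw [Nat.count_succ, Nat.count_nth_of_infinite hi, if_pos (Nat.nth_mem_of_infinite hi k)]

end Pool.Agent.Q210.RWT.PTZ1
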