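import Pool.Agent.Q210.RWT.Stmts

set_option autoImplicit false

namespace Pool.Agent.Q210.RWT.PTZ2

open Finset Filter

theorem main : TZ2 := by
  intro d b hb c k
  have hinf : {x | b x = 0}.Infinite :=
    Nat.frequently_atTop_iff_infinite.mp (frequently_atTop.mpr fun N => by
      obtain ⟨x, hx, hx'⟩ := hb N
      exact ⟨x, hx, hx'⟩)
  have hc : zc b c = Nat.count (fun x => b x = 0) c := by
    unfold zc
    rw [Nat.count_eq_card_filter_range]
  cases k with
  | zero => simp [zpos]
  | succ k =>
    have h := Nat.count_le_iff_le_nth hinf (a := c) (b := k)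
    rw [hc]
    simp only [zpos]
    constructor
    · intro h1
      exact Nat.lt_succ_of_le (h.mp (Nat.le_of_lt_succ h1))
    · intro h1
      exact Nat.lt_succ_of_le (h.mpr (Nat.le_of_lt_succ h1))

end Pool.Agent.Q210.RWT.PTZ2
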