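import Pool.Agent.Q210.RWT.Stmts

namespace Pool.Agent.Q210.RWT.PTZ3

open Finset Pool.Agent.Q210.RWT

theorem main : Pool.Agent.Q210.RWT.TZ3 := by
  intro d b c
  unfold uc zc
  have h := Finset.card_eq_sum_card_fiberwise (s := range c) (t := (univ : Finset (Fin (d + 1))))
    (f := b) (by intro x _; simp)
  rw [Fin.sum_univ_succ, card_range] at h
  rw [add_comm]
  exact h.symm

end Pool.Agent.Q210.RWT.PTZ3
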